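import Pool.Agent.Helper20.KP.StHB

/-!
# Project KP (MP_26be5b_ag), module HB3: the boundary
-/

set_option autoImplicit false

namespace Pool.Agent.Helper89.KP

open MeasureTheory Filter Pool.Agent.Helper52.KP Pool.Agent.Helper67.NO Pool.Agent.Helper20.KP
open scoped Topology

universe u

/-- MODULE HB3 (boundary). -/
theorem hHB3 : StBDY.{u} → StHB1.{u} → StHB3.{u} := by
  intro hBDY hHB1 g _ _ _ _ x₀ hx₀ hn C D hD
  subst hD
  obtain ⟨hco, hic, -, hQ, -⟩ := hHB1 g x₀ hx₀ hn C (mkOD C) rfl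
  have hb := hBDY g x₀ hx₀ hn
  rw [← C.hrk] at hb
  obtain ⟨-, c, hc, hx⟩ := hb
  have hO : ∀ v : Fin (Module.finrank ℂ g) → ℂ, v ∈ (mkOD C).O ↔ Orb x₀ (ic v : g) := by
    intro v
    constructor
    · rintro ⟨y, hy, rfl⟩
      rw [hic]
      exact hy
    · intro h
      exact ⟨ic v, h, hco v⟩
  have hcl : ∀ v : Fin (Module.finrank ℂ g) → ℂ, v ∈ closure (mkOD C).O →
      co (ic v : g) ∈ closure (co '' {y | Orb x₀ y}) := by
    intro v hv
    rw [hco]
    exact hv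
  refine ⟨⟨fun i w => co (c i w), fun i => differentiableOn_univ.1 (hc i), ?_⟩, ?_⟩
  · rintro v ⟨hv, hv'⟩
    obtain ⟨i, w, hw⟩ := (hx (ic v) (hcl v hv)).2 fun h => hv' ((hO v).2 h)
    refine Set.mem_iUnion.2 ⟨i, w, ?_⟩
    show co (c i w) = v
    rw [hw]
    exact hco v
  · intro v hv
    have h1 := (hx (ic v) (hcl v hv)).1
    have h2 := hQ (ic v)
    rw [hco] at h2
    exact (hO v).trans (h1.trans h2.symm)

end Pool.Agent.Helper89.KP
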