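import Pool.Agent.Helper85.KP.StE
import Pool.Agent.Helper31.KP.Hol

/-!
# Project KP (MP_26be5b_ag), module EVH: homogeneity of the vector field
-/

set_option autoImplicit false

namespace Pool.Agent.Helper89.KP

open MeasureTheory Filter Pool.Agent.Helper52.KP Pool.Agent.Helper85.KP
open scoped ContDiff ComplexOrder Topology

section general

variable {m : ℕ}

/-- a product with a test function is continuous with compact support -/
private theorem int_test {U : Set (Fin m → ℂ)} (hU : IsOpen U) {h φ : (Fin m → ℂ) → ℂ}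
    (hh : ContinuousOn h U) (hφ : ContinuousOn φ U) (hc : HasCompactSupport φ)
    (hs : tsupport φ ⊆ U) : Integrable (fun z => h z * φ z) := by
  have hsup : tsupport (fun z => h z * φ z) ⊆ tsupport φ := by
    apply closure_mono
    intro z hz hz'
    apply hz
    simp [hz']
  have h1 : Continuous (fun z => h z * φ z) :=
    (hh.mul hφ).continuous_of_tsupport_subset hU (hsup.trans hs)
  exact h1.integrable_of_hasCompactSupport hc.mul_left

private theorem star_tst {U : Set (Fin m → ℂ)} {φ : (Fin m → ℂ) → ℂ} (hφ : Tst U φ) :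
    Tst U (fun z => star (φ z)) := by
  obtain ⟨h1, h2, h3⟩ := hφ
  have he : Function.support (fun z => star (φ z)) = Function.support φ := by
    ext z; simp
  have ht : tsupport (fun z => star (φ z)) = tsupport φ := by
    unfold tsupport; rw [he]
  refine ⟨?_, ?_, ?_⟩
  · exact Complex.conjCLE.contDiff.comp h1
  · unfold HasCompactSupport; rw [ht]; exact h2
  · rw [ht]; exact h3

private theorem cf_smooth {U : Set (Fin m → ℂ)} {ψ : (Fin m → ℂ) → ℝ}
    (h : ContDiffOn ℝ ∞ ψ U) : ContDiffOn ℝ ∞ (cf ψ) U :=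
  Complex.ofRealCLM.contDiff.comp_contDiffOn h

/-- integration by parts for the weight `e^{-ψ}` -/
private theorem ibp (hCAL : StCAL) (hIBP : StIBP) {U : Set (Fin m → ℂ)} (hU : IsOpen U)
    {ψ : (Fin m → ℂ) → ℝ} (hψ : ContDiffOn ℝ ∞ ψ U) {β : (Fin m → ℂ) → ℂ}
    (hβ : ContDiffOn ℝ ∞ β U) (j : Fin m) {φ : (Fin m → ℂ) → ℂ} (hφ : Tst U φ) :
    inn U ψ β (db j φ) =
      - ∫ z in U, (dz j β z - dz j (cf ψ) z * β z) * star (φ z) * (Real.exp (-ψ z) : ℂ) := by
  have hst := star_tst hφ
  obtain ⟨hs1, hs2, hs3⟩ := hst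
  have hE : ContDiffOn ℝ ∞ (fun z => Complex.exp (-(ψ z : ℂ))) U :=
    Complex.contDiff_exp.comp_contDiffOn (cf_smooth hψ).neg
  have hb : ContDiffOn ℝ ∞ (fun z => β z * Complex.exp (-(ψ z : ℂ))) U := hβ.mul hE
  set F : (Fin m → ℂ) → ℂ := fun z => star (φ z) * (β z * Complex.exp (-(ψ z : ℂ))) with hF
  have hFc : HasCompactSupport F := hs2.mul_right
  have hFs : tsupport F ⊆ U := by
    refine subset_trans ?_ hs3
    apply closure_mono
    intro z hz hz'
    apply hz
    simp only [hF, hz', zero_mul]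
  have hFsm : ContDiff ℝ 1 F := by
    rw [contDiff_iff_contDiffAt]
    intro z
    by_cases hz : z ∈ tsupport F
    · have hzU : U ∈ 𝓝 z := hU.mem_nhds (hFs hz)
      have h2 : ContDiffAt ℝ ∞ F z := (hs1.contDiffAt).mul (hb.contDiffAt hzU)
      exact h2.of_le (by exact_mod_cast le_top)
    · have h0 : F =ᶠ[𝓝 z] fun _ => 0 := notMem_tsupport_iff_eventuallyEq.1 hz
      exact contDiffAt_const.congr_of_eventuallyEq h0
  have h1 := (hIBP m j (fun _ => 1) F contDiff_const hFsm hFc).1
  have h2 : ∀ z, dz j (fun _ : Fin m → ℂ => (1 : ℂ)) z = 0 := by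
    intro z
    simp [dz]
  have hint : ∫ z, dz j F z = 0 := by
    simp only [h2, zero_mul, integral_zero, one_mul] at h1
    have := h1.symm
    rwa [neg_eq_zero] at this
  have hval : ∀ z ∈ U, dz j F z = β z * Complex.exp (-(ψ z : ℂ)) * star (db j φ z) +
      (dz j β z - dz j (cf ψ) z * β z) * Complex.exp (-(ψ z : ℂ)) * star (φ z) := by
    intro z hz
    have hzU : U ∈ 𝓝 z := hU.mem_nhds hz
    have d1 : DifferentiableAt ℝ φ z := (hφ.1.differentiable (by simp)) z
    have d1' : DifferentiableAt ℝ (fun z => star (φ z)) z := (hs1.differentiable (by simp)) z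
    have d2 : DifferentiableAt ℝ β z := (hβ.contDiffAt hzU).differentiableAt (by simp)
    have d3 : DifferentiableAt ℝ (cf ψ) z :=
      ((cf_smooth hψ).contDiffAt hzU).differentiableAt (by simp)
    have d3' : DifferentiableAt ℝ (fun z => -(ψ z : ℂ)) z := d3.neg
    have d4 : DifferentiableAt ℝ (fun z => Complex.exp (-(ψ z : ℂ))) z :=
      (hE.contDiffAt hzU).differentiableAt (by simp)
    have e1 := ((hCAL m j j (fun z => star (φ z))
      (fun z => β z * Complex.exp (-(ψ z : ℂ))) z).1 d1' (d2.mul d4)).2.2.1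
    have e2 := ((hCAL m j j φ φ z).1 d1 d1).2.2.2.2.1
    have e3 := ((hCAL m j j β (fun z => Complex.exp (-(ψ z : ℂ))) z).1 d2 d4).2.2.1
    have e4 := ((hCAL m j j (fun z => -(ψ z : ℂ)) (fun z => -(ψ z : ℂ)) z).1 d3' d3').2.2.2.2.2.2.1
    have e5 : dz j (fun z => -(ψ z : ℂ)) z = - dz j (cf ψ) z := by
      have : (fun z => -(ψ z : ℂ)) = - cf ψ := rfl
      rw [this]
      unfold dz
      rw [fderiv_neg]
      simp only [neg_apply]
      ring
    rw [hF, e1, e2, e3, e4, e5]
    ring
  have hzero : ∀ z, z ∉ U → dz j F z = 0 := by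
    intro z hz
    have h0 : F =ᶠ[𝓝 z] fun _ => 0 :=
      notMem_tsupport_iff_eventuallyEq.1 fun h => hz (hFs h)
    unfold dz
    rw [h0.fderiv_eq]
    simp
  have hint2 : ∫ z in U, dz j F z = 0 := by
    rw [setIntegral_eq_integral_of_forall_compl_eq_zero hzero, hint]
  have hdbs : Tst U (fun z => star (db j φ z)) := by
    have hdb : Tst U (db j φ) := by
      refine ⟨?_, ?_, ?_⟩
      · have := ((hCAL m j j φ φ 0).2.2.2.2 Set.univ isOpen_univ hφ.1.contDiffOn).2
        exact contDiffOn_univ.1 this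
      · refine HasCompactSupport.intro' hφ.2.1 (isClosed_tsupport _) ?_
        intro z hz
        have h0 : φ =ᶠ[𝓝 z] fun _ => 0 := notMem_tsupport_iff_eventuallyEq.1 hz
        unfold db
        rw [h0.fderiv_eq]
        simp
      · refine subset_trans ?_ hφ.2.2
        apply closure_minimal _ (isClosed_tsupport _)
        intro z hz
        by_contra hz'
        apply hz
        have h0 : φ =ᶠ[𝓝 z] fun _ => 0 := notMem_tsupport_iff_eventuallyEq.1 hz'
        unfold db
        rw [h0.fderiv_eq]
        simp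
    exact star_tst hdb
  have hdzβ : ContinuousOn (dz j β) U := ((hCAL m j j β β 0).2.2.2.2 U hU hβ).1.continuousOn
  have hdzψ : ContinuousOn (dz j (cf ψ)) U :=
    ((hCAL m j j (cf ψ) β 0).2.2.2.2 U hU (cf_smooth hψ)).1.continuousOn
  have i1 : Integrable (fun z => β z * Complex.exp (-(ψ z : ℂ)) * star (db j φ z)) :=
    int_test hU hb.continuousOn hdbs.1.continuous.continuousOn hdbs.2.1 hdbs.2.2
  have i2 : Integrable (fun z => (dz j β z - dz j (cf ψ) z * β z) *
      Complex.exp (-(ψ z : ℂ)) * star (φ z)) :=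
    int_test hU ((hdzβ.sub (hdzψ.mul hβ.continuousOn)).mul hE.continuousOn)
      hs1.continuous.continuousOn hs2 hs3
  have hsum : (∫ z in U, β z * Complex.exp (-(ψ z : ℂ)) * star (db j φ z)) +
      ∫ z in U, (dz j β z - dz j (cf ψ) z * β z) * Complex.exp (-(ψ z : ℂ)) * star (φ z) = 0 := by
    rw [← integral_add i1.integrableOn i2.integrableOn, ← hint2]
    exact (setIntegral_congr_fun hU.measurableSet fun z hz => (hval z hz)).symm
  have hL : inn U ψ β (db j φ) =
      ∫ z in U, β z * Complex.exp (-(ψ z : ℂ)) * star (db j φ z) := by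
    unfold inn
    congr 1
    funext z
    push_cast
    ring
  have hR : (∫ z in U, (dz j β z - dz j (cf ψ) z * β z) * star (φ z) *
      (Real.exp (-ψ z) : ℂ)) =
      ∫ z in U, (dz j β z - dz j (cf ψ) z * β z) * Complex.exp (-(ψ z : ℂ)) * star (φ z) := by
    congr 1
    funext z
    push_cast
    ring
  rw [hL, hR]
  exact eq_neg_of_add_eq_zero_left hsum

/-- the chain rule for a diagonal linear map -/
private theorem chain (hCAL : StCAL) (j : Fin m) (w : Fin m → ℕ) (c : ℂ)
    (f : (Fin m → ℂ) → ℂ) (z : Fin m → ℂ) (hf : DifferentiableAt ℝ f (scl w c z)) :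
    dz j (fun y => f (scl w c y)) z = c ^ w j * dz j f (scl w c z) ∧
    db j (fun y => f (scl w c y)) z = star c ^ w j * db j f (scl w c z) := by
  classical
  let T : (Fin m → ℂ) →L[ℝ] (Fin m → ℂ) :=
    ContinuousLinearMap.pi fun i =>
      ((c ^ w i) • (ContinuousLinearMap.proj i : (Fin m → ℂ) →L[ℝ] ℂ))
  have hT : ∀ y, T y = scl w c y := by
    intro y
    funext i
    simp [T, scl]
  have hT' : HasFDerivAt (scl w c) T z := by
    have : scl w c = fun y => T y := by
      funext y; rw [hT]
    rw [this]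
    exact T.hasFDerivAt
  have hfd : fderiv ℝ (fun y => f (scl w c y)) z = (fderiv ℝ f (scl w c z)).comp T :=
    (hf.hasFDerivAt.comp z hT').fderiv
  have hform := ((hCAL m j j f f (scl w c z)).2.1 hf).1
  have hs : ∀ a : ℂ, T (Pi.single j a) = Pi.single j (c ^ w j * a) := by
    intro a
    rw [hT]
    funext i
    unfold scl
    by_cases h : i = j
    · subst h; simp
    · simp [Pi.single_eq_of_ne h]
  have hv : ∀ a : ℂ, fderiv ℝ (fun y => f (scl w c y)) z (Pi.single j a) =
      dz j f (scl w c z) * (c ^ w j * a) + db j f (scl w c z) * star (c ^ w j * a) := by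
    intro a
    rw [hfd, ContinuousLinearMap.comp_apply, hs, hform]
    rw [Finset.sum_eq_single j]
    · simp
    · intro i _ hi
      simp [Pi.single_eq_of_ne hi]
    · simp
  have hst1 : star (c ^ w j * 1) = star c ^ w j := by rw [mul_one, star_pow]
  have hst2 : star (c ^ w j * Complex.I) = star c ^ w j * (-Complex.I) := by
    rw [star_mul', star_pow, Complex.star_def, Complex.conj_I]
  constructor
  · have e : dz j (fun y => f (scl w c y)) z =
      (fderiv ℝ (fun y => f (scl w c y)) z (Pi.single j 1) -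
        Complex.I * fderiv ℝ (fun y => f (scl w c y)) z (Pi.single j Complex.I)) / 2 := rfl
    rw [e, hv, hv, hst1, hst2]
    linear_combination ((-(dz j f (scl w c z)) * c ^ w j +
      db j f (scl w c z) * star c ^ w j) / 2) * Complex.I_sq
  · have e : db j (fun y => f (scl w c y)) z =
      (fderiv ℝ (fun y => f (scl w c y)) z (Pi.single j 1) +
        Complex.I * fderiv ℝ (fun y => f (scl w c y)) z (Pi.single j Complex.I)) / 2 := rfl
    rw [e, hv, hv, hst1, hst2]
    linear_combination ((dz j f (scl w c z) * c ^ w j -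
      db j f (scl w c z) * star c ^ w j) / 2) * Complex.I_sq

/-- `db` of a sum -/
private theorem db_sum (k : Fin m) (F : Fin m → (Fin m → ℂ) → ℂ) (z : Fin m → ℂ)
    (hF : ∀ j, DifferentiableAt ℝ (F j) z) :
    db k (fun y => - ∑ j, F j y) z = - ∑ j, db k (F j) z := by
  have h1 : fderiv ℝ (fun y => - ∑ j, F j y) z = - ∑ j, fderiv ℝ (F j) z := by
    rw [fderiv_fun_neg, fderiv_fun_sum fun j _ => hF j]
  unfold db
  rw [h1]
  simp only [neg_apply, sum_apply]
  rw [← Finset.sum_div, Finset.sum_add_distrib, ← Finset.mul_sum]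
  ring

/-- `db` depends only on the germ -/
private theorem db_congr {k : Fin m} {f f' : (Fin m → ℂ) → ℂ} {z : Fin m → ℂ}
    (h : f =ᶠ[𝓝 z] f') : db k f z = db k f' z := by
  unfold db; rw [h.fderiv_eq]

private theorem dz_congr {k : Fin m} {f f' : (Fin m → ℂ) → ℂ} {z : Fin m → ℂ}
    (h : f =ᶠ[𝓝 z] f') : dz k f z = dz k f' z := by
  unfold dz; rw [h.fderiv_eq]

private theorem db_const_mul (hCAL : StCAL) {k : Fin m} {f : (Fin m → ℂ) → ℂ} {z : Fin m → ℂ}
    (c : ℂ) (h : DifferentiableAt ℝ f z) : db k (fun y => c * f y) z = c * db k f z := by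
  have := ((hCAL m k k (fun _ => c) f z).1 (differentiableAt_const _) h).2.2.2.1
  rw [this]
  simp [db]

private theorem dz_const_mul (hCAL : StCAL) {k : Fin m} {f : (Fin m → ℂ) → ℂ} {z : Fin m → ℂ}
    (c : ℂ) (h : DifferentiableAt ℝ f z) : dz k (fun y => c * f y) z = c * dz k f z := by
  have := ((hCAL m k k (fun _ => c) f z).1 (differentiableAt_const _) h).2.2.1
  rw [this]
  simp [dz]

private theorem scl_diff (w : Fin m → ℕ) (c : ℂ) (z : Fin m → ℂ) :
    DifferentiableAt ℝ (scl w c) z :=
  differentiableAt_pi.2 fun i => (differentiableAt_const _).mul (differentiableAt_apply i z)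

/-- preimages of null sets under `scl` -/
private theorem scl_ae (w : Fin m → ℕ) (c : ℂ) (hc : c ≠ 0) {P : (Fin m → ℂ) → Prop}
    (h : ∀ᵐ z, P z) : ∀ᵐ z, P (scl w c z) := by
  let T : (Fin m → ℂ) →ₗ[ℝ] (Fin m → ℂ) :=
    LinearMap.pi fun i => ((c ^ w i) • (LinearMap.proj i : (Fin m → ℂ) →ₗ[ℝ] ℂ))
  let T' : (Fin m → ℂ) →ₗ[ℝ] (Fin m → ℂ) :=
    LinearMap.pi fun i => ((c ^ w i)⁻¹ • (LinearMap.proj i : (Fin m → ℂ) →ₗ[ℝ] ℂ))
  have hT : ∀ y, T y = scl w c y := by
    intro y
    funext i
    simp [T, scl]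
  have h1 : T ∘ₗ T' = LinearMap.id := by
    refine LinearMap.ext fun y => ?_
    funext i
    have : c ^ w i ≠ 0 := pow_ne_zero _ hc
    simp [T, T', this]
  have hdet : LinearMap.det T ≠ 0 := by
    intro h0
    have := congrArg LinearMap.det h1
    rw [LinearMap.det_comp, h0, LinearMap.det_id] at this
    simp at this
  have h2 : (volume : Measure (Fin m → ℂ)) (T ⁻¹' {z | ¬ P z}) = 0 := by
    rw [Measure.addHaar_preimage_linearMap volume hdet]
    rw [ae_iff] at h
    rw [h, mul_zero]
  rw [ae_iff]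
  refine measure_mono_null ?_ h2
  intro z hz
  simpa [hT] using hz

end general

private theorem two_le : (2 : WithTop ℕ∞) ≤ ∞ := by
  have : ((2 : ℕ∞) : WithTop ℕ∞) ≤ ((⊤ : ℕ∞) : WithTop ℕ∞) := WithTop.coe_le_coe.2 le_top
  exact this

/-- MODULE EVH (homogeneity of the field). -/
theorem hEVH : StCAL → StIBP → StEVH := by
  intro hCAL hIBP C hC g B c hgm hgB hghom β hβ hWT c' hc' z₀ hz₀ j₀
  have hcn : c' ≠ 0 := by
    intro h; rw [h, norm_zero] at hc'; exact zero_ne_one hc'
  have hU : IsOpen C.U := isOpen_ne_fun (MvPolynomial.continuous_eval _) continuous_const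
  have hβs : ∀ j, ContDiffOn ℝ ∞ (β j) C.U := fun j =>
    Pool.Agent.Helper31.KP.Hol.contDiffOn_real hU (hβ j)
  have hus : ContDiffOn ℝ ∞ (cf C.u) C.U := cf_smooth hC.usm
  have hdu : ∀ j, ContDiffOn ℝ ∞ (dz j (cf C.u)) C.U := fun j =>
    ((hCAL C.m j j (cf C.u) (cf C.u) 0).2.2.2.2 C.U hU hus).1
  have hdbu : ∀ j, ContDiffOn ℝ ∞ (db j (cf C.u)) C.U := fun j =>
    ((hCAL C.m j j (cf C.u) (cf C.u) 0).2.2.2.2 C.U hU hus).2
  have hdβ : ∀ j, ContDiffOn ℝ ∞ (dz j (β j)) C.U := fun j =>
    ((hCAL C.m j j (β j) (β j) 0).2.2.2.2 C.U hU (hβs j)).1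
  set G : Fin C.m → (Fin C.m → ℂ) → ℂ := fun j z => dz j (β j) z - dz j (cf C.u) z * β j z
    with hG
  have hGs : ∀ j, ContDiffOn ℝ ∞ (G j) C.U := fun j => (hdβ j).sub ((hdu j).mul (hβs j))
  set a : (Fin C.m → ℂ) → ℂ := fun z => - ∑ j, G j z with ha
  have has : ContDiffOn ℝ ∞ a C.U := (ContDiffOn.sum fun j _ => hGs j).neg
  set b : (Fin C.m → ℂ) → ℂ := fun z => ((g z - c : ℝ) : ℂ) * ev C.J z with hb
  have hEc : ContinuousOn (fun z => (Real.exp (-C.u z) : ℂ)) C.U := by
    have : ContinuousOn (fun z => Real.exp (-C.u z)) C.U :=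
      Real.continuous_exp.comp_continuousOn hC.usm.continuousOn.neg
    exact Complex.continuous_ofReal.comp_continuousOn this
  have hJc : Continuous (fun z => ev C.J z) := MvPolynomial.continuous_eval _
  -- step 1: the function `a` equals `b` almost everywhere
  have hae : ∀ᵐ z, z ∈ C.U → (a z - b z) * (Real.exp (-C.u z) : ℂ) = 0 := by
    have hlb : ∀ K ⊆ C.U, IsCompact K → IntegrableOn (fun z => b z * (Real.exp (-C.u z) : ℂ)) K := by
      intro K hK hKc
      have hJE : ContinuousOn (fun z => ev C.J z * (Real.exp (-C.u z) : ℂ)) K :=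
        (hJc.continuousOn.mul hEc).mono hK
      obtain ⟨M, hM⟩ := hKc.exists_bound_of_continuousOn (hC.usm.continuousOn.mono hK)
      have hgc : ∀ z ∈ K, ‖((g z - c : ℝ) : ℂ)‖ ≤ |B| * M + |c| := by
        intro z hz
        rw [Complex.norm_real, Real.norm_eq_abs]
        have h1 := hgB z (hK hz)
        have h2 := hM z hz
        rw [Real.norm_eq_abs] at h2
        calc |g z - c| ≤ |g z| + |c| := abs_sub _ _
          _ ≤ B * C.u z + |c| := by linarith
          _ ≤ |B| * |C.u z| + |c| := by
            have := le_abs_self (B * C.u z)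
            rw [abs_mul] at this
            linarith
          _ ≤ |B| * M + |c| := by
            have := mul_le_mul_of_nonneg_left h2 (abs_nonneg B)
            linarith
      have h3 : IntegrableOn (fun z => (|B| * M + |c|) *
          ‖ev C.J z * (Real.exp (-C.u z) : ℂ)‖) K :=
        (continuousOn_const.mul hJE.norm).integrableOn_compact hKc
      refine Integrable.mono' h3 ?_ ?_
      · have h4 : AEStronglyMeasurable (fun z => ((g z - c : ℝ) : ℂ))
            (volume.restrict K) :=
          (Complex.measurable_ofReal.comp (hgm.sub_const c)).aestronglyMeasurable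
        have h5 := h4.mul (hJE.aestronglyMeasurable hKc.measurableSet)
        refine h5.congr (Eventually.of_forall fun z => ?_)
        simp only [hb, Pi.mul_apply]
        ring
      · rw [ae_restrict_iff' hKc.measurableSet]
        refine Eventually.of_forall fun z hz => ?_
        simp only [hb]
        rw [mul_assoc, norm_mul]
        exact mul_le_mul_of_nonneg_right (hgc z hz) (norm_nonneg _)
    have hla : ∀ K ⊆ C.U, IsCompact K → IntegrableOn (fun z => a z * (Real.exp (-C.u z) : ℂ)) K := by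
      intro K hK hKc
      exact ((has.continuousOn.mul hEc).mono hK).integrableOn_compact hKc
    refine hU.ae_eq_zero_of_integral_contDiff_smul_eq_zero (μ := volume) ?_ ?_
    · rw [locallyIntegrableOn_iff hU.isLocallyClosed]
      intro K hK hKc
      refine ((hla K hK hKc).sub (hlb K hK hKc)).congr (Eventually.of_forall fun z => ?_)
      simp only [Pi.sub_apply]
      ring
    · intro φ hφ1 hφ2 hφ3
      have hsupp : Function.support (cf φ) = Function.support φ := by
        ext z; simp [cf]
      have htsup : tsupport (cf φ) = tsupport φ := by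
        unfold tsupport; rw [hsupp]
      have hT0 : Tst C.U (cf φ) := by
        refine ⟨Complex.ofRealCLM.contDiff.comp hφ1, ?_, ?_⟩
        · unfold HasCompactSupport; rw [htsup]; exact hφ2
        · rw [htsup]; exact hφ3
      have hS := star_tst hT0
      have hw := hWT (cf φ) hT0
      have iG : ∀ j, Integrable (fun z => G j z * star (cf φ z) * (Real.exp (-C.u z) : ℂ)) := by
        intro j
        refine (int_test hU ((hGs j).continuousOn.mul hEc) hS.1.continuous.continuousOn
          hS.2.1 hS.2.2).congr (Eventually.of_forall fun z => ?_)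
        simp only [Pi.mul_apply]
        ring
      have iA : Integrable (fun z => a z * star (cf φ z) * (Real.exp (-C.u z) : ℂ)) := by
        refine (int_test hU (has.continuousOn.mul hEc) hS.1.continuous.continuousOn
          hS.2.1 hS.2.2).congr (Eventually.of_forall fun z => ?_)
        simp only [Pi.mul_apply]
        ring
      have iB : Integrable (fun z => b z * star (cf φ z) * (Real.exp (-C.u z) : ℂ)) := by
        have h1 := (hlb (tsupport (fun z => star (cf φ z))) hS.2.2 hS.2.1).mul_continuousOn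
          hS.1.continuous.continuousOn hS.2.1
        have h2 : IntegrableOn (fun z => b z * star (cf φ z) * (Real.exp (-C.u z) : ℂ))
            (tsupport (fun z => star (cf φ z))) :=
          h1.congr (Eventually.of_forall fun z => by ring)
        refine (integrableOn_iff_integrable_of_support_subset ?_).1 h2
        intro z hz
        apply subset_tsupport
        intro h0
        apply hz
        simp only [h0, mul_zero, zero_mul]
      have hA : ∫ z in C.U, a z * star (cf φ z) * (Real.exp (-C.u z) : ℂ) =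
          ∑ j, inn C.U C.u (β j) (db j (cf φ)) := by
        rw [Finset.sum_congr rfl fun j _ => ibp hCAL hIBP hU hC.usm (hβs j) j hT0,
          Finset.sum_neg_distrib, ← integral_finsetSum _ fun j _ => (iG j).integrableOn,
          ← integral_neg]
        congr 1
        funext z
        simp only [ha]
        rw [← Finset.sum_mul, ← Finset.sum_mul]
        ring
      have hB : inn C.U C.u b (cf φ) =
          ∫ z in C.U, b z * star (cf φ z) * (Real.exp (-C.u z) : ℂ) := rfl
      have hz : ∀ z, z ∉ C.U → φ z • ((a z - b z) * (Real.exp (-C.u z) : ℂ)) = 0 := by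
        intro z hz
        have : φ z = 0 := by
          by_contra h
          exact hz (hφ3 (subset_tsupport _ h))
        rw [this, zero_smul]
      rw [← setIntegral_eq_integral_of_forall_compl_eq_zero hz]
      have he : (∫ z in C.U, φ z • ((a z - b z) * (Real.exp (-C.u z) : ℂ))) =
          (∫ z in C.U, a z * star (cf φ z) * (Real.exp (-C.u z) : ℂ)) -
            ∫ z in C.U, b z * star (cf φ z) * (Real.exp (-C.u z) : ℂ) := by
        rw [← integral_sub iA.integrableOn iB.integrableOn]
        congr 1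
        funext z
        have : star (cf φ z) = (φ z : ℂ) := Complex.conj_ofReal _
        rw [this, Complex.real_smul]
        ring
      rw [he, hA, ← hw, hB, sub_self]
  -- step 2
  have hab : ∀ᵐ z, z ∈ C.U → a z = b z := by
    filter_upwards [hae] with z hz hzU
    have := hz hzU
    have h2 : (Real.exp (-C.u z) : ℂ) ≠ 0 := by
      exact_mod_cast (Real.exp_pos _).ne'
    exact sub_eq_zero.1 ((mul_eq_zero.1 this).resolve_right h2)
  have hT : ∀ z ∈ C.U, scl C.w c' z ∈ C.U := hC.sclU c' hcn
  have hTc : Continuous (scl C.w c') := by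
    refine continuous_pi fun i => ?_
    exact continuous_const.mul (continuous_apply i)
  have haT : ∀ z ∈ C.U, a (scl C.w c' z) = c' ^ C.jd * a z := by
    have h1 : (fun z => a (scl C.w c' z)) =ᵐ[volume.restrict C.U] fun z => c' ^ C.jd * a z := by
      rw [Filter.EventuallyEq, ae_restrict_iff' hU.measurableSet]
      filter_upwards [hab, scl_ae C.w c' hcn hab] with z h1 h2 hz
      rw [h2 (hT z hz), h1 hz]
      simp only [hb]
      rw [hghom z hz c' hcn, hC.Jhom, hc', one_mul]
      ring
    have h2 := Measure.eqOn_open_of_ae_eq h1 hU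
      (has.continuousOn.comp hTc.continuousOn fun z hz => hT z hz)
      (continuousOn_const.mul has.continuousOn)
    exact fun z hz => h2 hz
  -- step 3: derivative of `a`
  have hdba : ∀ z ∈ C.U, ∀ k, db k a z = ∑ j, hes C.u z j k * β j z := by
    intro z hz k
    have hzU : C.U ∈ 𝓝 z := hU.mem_nhds hz
    have hd : ∀ {f : (Fin C.m → ℂ) → ℂ}, ContDiffOn ℝ ∞ f C.U → DifferentiableAt ℝ f z :=
      fun h => (h.contDiffAt hzU).differentiableAt (by simp)
    rw [ha, db_sum k G z fun j => hd (hGs j), ← Finset.sum_neg_distrib]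
    refine Finset.sum_congr rfl fun j _ => ?_
    have hdb0 : ∀ y ∈ C.U, db k (β j) y = 0 := fun y hy =>
      ((hCAL C.m k k (β j) (β j) y).2.2.1 ((hβ j).differentiableAt (hU.mem_nhds hy))).1
    have e1 : db k (dz j (β j)) z = 0 := by
      rw [((hCAL C.m j k (β j) (β j) z).2.2.2.1
        (((hβs j).contDiffAt hzU).of_le two_le)).1]
      have : db k (β j) =ᶠ[𝓝 z] fun _ => 0 := by
        filter_upwards [hzU] with y hy using hdb0 y hy
      rw [dz_congr this]
      simp [dz]
    have e2 : db k (dz j (cf C.u)) z = hes C.u z j k :=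
      ((hCAL C.m j k (cf C.u) (cf C.u) z).2.2.2.1
        ((hus.contDiffAt hzU).of_le two_le)).1
    have e3 := ((hCAL C.m k k (dz j (cf C.u)) (β j) z).1 (hd (hdu j)) (hd (hβs j))).2.2.2.1
    have e4 : db k (G j) z = db k (dz j (β j)) z - db k (fun y => dz j (cf C.u) y * β j y) z := by
      have : fderiv ℝ (G j) z = fderiv ℝ (dz j (β j)) z -
          fderiv ℝ (fun y => dz j (cf C.u) y * β j y) z :=
        fderiv_fun_sub (hd (hdβ j)) ((hd (hdu j)).mul (hd (hβs j)))
      unfold db
      rw [this]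
      simp only [sub_apply]
      ring
    rw [e4, e1, e3, e2, hdb0 z hz]
    ring
  -- step 4: the Hessian
  have hhes : ∀ z ∈ C.U, ∀ j k, hes C.u z j k =
      star c' ^ C.w k * (c' ^ C.w j * hes C.u (scl C.w c' z) j k) := by
    intro z hz j k
    have hd : ∀ {f : (Fin C.m → ℂ) → ℂ} {y : Fin C.m → ℂ}, ContDiffOn ℝ ∞ f C.U → y ∈ C.U →
        DifferentiableAt ℝ f y :=
      fun h hy => (h.contDiffAt (hU.mem_nhds hy)).differentiableAt (by simp)
    have e1 : ∀ y ∈ C.U, db k (cf C.u) y = star c' ^ C.w k * db k (cf C.u) (scl C.w c' y) := by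
      intro y hy
      rw [← (chain hCAL k C.w c' (cf C.u) y (hd hus (hT y hy))).2]
      refine db_congr ?_
      filter_upwards [hU.mem_nhds hy] with y' hy'
      simp only [cf]
      rw [hC.uhom y' hy' c' hcn, hc', one_mul]
    have e2 : dz j (db k (cf C.u)) z =
        dz j (fun y => star c' ^ C.w k * db k (cf C.u) (scl C.w c' y)) z := by
      refine dz_congr ?_
      filter_upwards [hU.mem_nhds hz] with y hy using e1 y hy
    have e3 : DifferentiableAt ℝ (fun y => db k (cf C.u) (scl C.w c' y)) z :=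
      (hd (hdbu k) (hT z hz)).comp z (scl_diff C.w c' z)
    have e4 := (chain hCAL j C.w c' (db k (cf C.u)) z (hd (hdbu k) (hT z hz))).1
    have e5 : hes C.u z j k = dz j (db k (cf C.u)) z := rfl
    have e6 : hes C.u (scl C.w c' z) j k = dz j (db k (cf C.u)) (scl C.w c' z) := rfl
    rw [e5, e6, e2, dz_const_mul hCAL _ e3, e4]
  -- step 5: the equation for the field
  have hd : ∀ {f : (Fin C.m → ℂ) → ℂ} {y : Fin C.m → ℂ}, ContDiffOn ℝ ∞ f C.U → y ∈ C.U →
      DifferentiableAt ℝ f y :=
    fun h hy => (h.contDiffAt (hU.mem_nhds hy)).differentiableAt (by simp)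
  have heq : ∀ k, star c' ^ C.w k *
      ∑ j, hes C.u (scl C.w c' z₀) j k * β j (scl C.w c' z₀) =
      c' ^ C.jd * ∑ j, hes C.u z₀ j k * β j z₀ := by
    intro k
    rw [← hdba _ (hT z₀ hz₀) k, ← hdba z₀ hz₀ k,
      ← (chain hCAL k C.w c' a z₀ (hd has (hT z₀ hz₀))).2,
      ← db_const_mul hCAL _ (hd has hz₀)]
    refine db_congr ?_
    filter_upwards [hU.mem_nhds hz₀] with y hy using haT y hy
  have hx : (fun j => (c' ^ C.w j)⁻¹ * β j (scl C.w c' z₀) - c' ^ C.jd * β j z₀) = 0 := by
    have hdet : (hes C.u z₀).det ≠ 0 := by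
      rw [(hC.uhes z₀ hz₀).2]
      have := hC.J0 z₀ hz₀
      exact_mod_cast pow_ne_zero 2 (norm_ne_zero_iff.2 this)
    by_contra hne
    apply hdet
    rw [← Matrix.exists_vecMul_eq_zero_iff]
    refine ⟨_, hne, ?_⟩
    funext k
    simp only [Matrix.vecMul, dotProduct, Pi.zero_apply]
    have h1 : ∀ j, ((c' ^ C.w j)⁻¹ * β j (scl C.w c' z₀) - c' ^ C.jd * β j z₀) *
        hes C.u z₀ j k = star c' ^ C.w k *
          (hes C.u (scl C.w c' z₀) j k * β j (scl C.w c' z₀)) -
        c' ^ C.jd * (hes C.u z₀ j k * β j z₀) := by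
      intro j
      have hne' : c' ^ C.w j ≠ 0 := pow_ne_zero _ hcn
      have h2 := hhes z₀ hz₀ j k
      have h3 : (c' ^ C.w j)⁻¹ * β j (scl C.w c' z₀) * hes C.u z₀ j k =
          star c' ^ C.w k * (hes C.u (scl C.w c' z₀) j k * β j (scl C.w c' z₀)) := by
        rw [h2]
        field_simp
      rw [sub_mul, h3]
      ring
    rw [Finset.sum_congr rfl fun j _ => h1 j, Finset.sum_sub_distrib, ← Finset.mul_sum,
      ← Finset.mul_sum, heq k, sub_self]
  have hfin := congrFun hx j₀
  simp only [Pi.zero_apply] at hfin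
  have hne' : c' ^ C.w j₀ ≠ 0 := pow_ne_zero _ hcn
  have h2 : (c' ^ C.w j₀)⁻¹ * β j₀ (scl C.w c' z₀) = c' ^ C.jd * β j₀ z₀ := sub_eq_zero.1 hfin
  rw [inv_mul_eq_iff_eq_mul₀ hne'] at h2
  rw [h2, pow_add]
  ring

end Pool.Agent.Helper89.KP
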