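import Pool.Agent.Helper93.KP.St

/-!
# Project KP, module MUD: differences of the main terms
-/

set_option autoImplicit false

noncomputable section

namespace Pool.Agent.Helper89.KP

open Finset Filter Topology Pool.Agent.Helper93.KP
open Pool.Agent.Helper15.AB (ee Kl StDB StMT)
open Pool.Agent.Helper9.TW (iv bx Rg cc Dec WF bm ms ind UpP LoP gm Ax GUp GLo Qs fm ej)

/-- `1 / m` -/
private def wt (m : ℕ) : ℝ := 1 / (m : ℝ)

/-- `1 / m` at the multiples of `p` -/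
private def up (p m : ℕ) : ℝ := if p ∣ m then 1 / (m : ℝ) else 0

private theorem wt_nonneg (m : ℕ) : 0 ≤ wt m := by unfold wt; positivity

private theorem up_nonneg (p m : ℕ) : 0 ≤ up p m := by
  unfold up
  split_ifs
  · positivity
  · exact le_rfl

private theorem up_eq {p m : ℕ} (h : p ∣ m) : up p m = wt m := by
  unfold up wt
  rw [if_pos h]

private theorem one_le_LL {a : ℕ} (ha : 2 ≤ a) : 1 ≤ 1 + Real.log a := by
  have : 0 ≤ Real.log a := Real.log_nonneg (by exact_mod_cast (by omega : 1 ≤ a))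
  linarith

private theorem harm {a : ℕ} {X : ℕ} (_ha : 1 ≤ a) (hX : X ≤ a) :
    ∑ m ∈ Icc 1 X, wt m ≤ 1 + Real.log a := by
  have h1 : ∑ m ∈ Icc 1 X, wt m ≤ ∑ m ∈ Icc 1 a, wt m := by
    apply Finset.sum_le_sum_of_subset_of_nonneg
    · exact Finset.Icc_subset_Icc le_rfl hX
    · intro i _ _
      exact wt_nonneg i
  have h2 : ((harmonic a : ℚ) : ℝ) = ∑ m ∈ Icc 1 a, wt m := by
    rw [harmonic_eq_sum_Icc]
    push_cast
    apply Finset.sum_congr rfl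
    intro m _
    unfold wt
    rw [one_div]
  have h3 := harmonic_le_one_add_log a
  rw [h2] at h3
  linarith

private theorem harm_up {a : ℕ} {X p : ℕ} (ha : 1 ≤ a) (hX : X ≤ a) (hp : 1 ≤ p) :
    ∑ m ∈ Icc 1 X, up p m ≤ (1 + Real.log a) / p := by
  have hp0 : (0 : ℝ) < p := by exact_mod_cast hp
  have h1 : ∑ m ∈ Icc 1 X, up p m = ∑ m ∈ (Icc 1 X).filter (fun m => p ∣ m), wt m := by
    rw [Finset.sum_filter]
    rfl
  have h2 : (Icc 1 X).filter (fun m => p ∣ m) ⊆ (Icc 1 X).image (fun j => p * j) := by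
    intro m hm
    rw [Finset.mem_filter, Finset.mem_Icc] at hm
    obtain ⟨⟨hm1, hm2⟩, j, rfl⟩ := hm
    rw [Finset.mem_image]
    refine ⟨j, ?_, rfl⟩
    rw [Finset.mem_Icc]
    constructor
    · rcases Nat.eq_zero_or_pos j with h | h
      · rw [h, mul_zero] at hm1
        omega
      · exact h
    · calc j = 1 * j := (one_mul j).symm
        _ ≤ p * j := Nat.mul_le_mul_right j hp
        _ ≤ X := hm2
  calc ∑ m ∈ Icc 1 X, up p m
      = ∑ m ∈ (Icc 1 X).filter (fun m => p ∣ m), wt m := h1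
    _ ≤ ∑ m ∈ (Icc 1 X).image (fun j => p * j), wt m :=
        Finset.sum_le_sum_of_subset_of_nonneg h2 (fun i _ _ => wt_nonneg i)
    _ = ∑ j ∈ Icc 1 X, wt (p * j) := by
        rw [Finset.sum_image]
        intro x _ y _ hxy
        exact Nat.eq_of_mul_eq_mul_left hp hxy
    _ = (∑ j ∈ Icc 1 X, wt j) / p := by
        rw [Finset.sum_div]
        apply Finset.sum_congr rfl
        intro j _
        unfold wt
        push_cast
        rw [div_div, mul_comm]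
    _ ≤ (1 + Real.log a) / p := by
        apply div_le_div_of_nonneg_right (harm ha hX) hp0.le

private theorem card_pf {a k : ℕ} (hk : 1 ≤ k) (hka : k ≤ a) :
    (k.primeFactors.card : ℝ) ≤ 2 * Real.log a := by
  have h1 : 2 ^ k.primeFactors.card ≤ k := by
    calc 2 ^ k.primeFactors.card ≤ ∏ p ∈ k.primeFactors, p := by
          apply Finset.pow_card_le_prod
          intro p hp
          exact (Nat.prime_of_mem_primeFactors hp).two_le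
      _ ≤ k := Nat.le_of_dvd hk (Nat.prod_primeFactors_dvd k)
  have h2 : (2 : ℝ) ^ k.primeFactors.card ≤ a := by
    calc (2 : ℝ) ^ k.primeFactors.card = ((2 ^ k.primeFactors.card : ℕ) : ℝ) := by push_cast; rfl
      _ ≤ (a : ℝ) := by exact_mod_cast h1.trans hka
  have h3 : (k.primeFactors.card : ℝ) * Real.log 2 ≤ Real.log a := by
    rw [← Real.log_pow]
    exact Real.log_le_log (by positivity) h2
  have h4 : (1 / 2 : ℝ) ≤ Real.log 2 := by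
    have := Real.log_two_gt_d9
    linarith
  have h5 : (0 : ℝ) ≤ k.primeFactors.card := by positivity
  nlinarith

private theorem sum_sq {c : ℕ} (hc : 1 ≤ c) : ∀ b : ℕ, c ≤ b →
    ∑ m ∈ Ico c b, 1 / (m : ℝ) ^ 2 ≤ 2 / (c : ℝ) - 2 / (b : ℝ) := by
  intro b hb
  induction b, hb using Nat.le_induction with
  | base => simp
  | succ b hb ih =>
    rw [Finset.sum_Ico_succ_top hb]
    have hb0 : (0 : ℝ) < b := by exact_mod_cast (by omega : 0 < b)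
    have hb1 : (1 : ℝ) ≤ b := by exact_mod_cast (by omega : 1 ≤ b)
    have h1 : 1 / (b : ℝ) ^ 2 ≤ 2 / (b : ℝ) - 2 / ((b + 1 : ℕ) : ℝ) := by
      push_cast
      rw [div_sub_div _ _ hb0.ne' (by positivity), div_le_div_iff₀ (by positivity) (by positivity)]
      nlinarith
    linarith

/-- primes in `[z, a]` -/
private def QZ (a : ℕ) (z : ℝ) : Finset ℕ := by
  classical exact (Icc 1 a).filter (fun p => p.Prime ∧ z ≤ (p : ℝ))

/-- prime factors of `k` that are at least `z` -/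
private def PQ (k : ℕ) (z : ℝ) : Finset ℕ := by
  classical exact k.primeFactors.filter (fun p => z ≤ (p : ℝ))

private theorem mem_QZ {a : ℕ} {z : ℝ} {p : ℕ} :
    p ∈ QZ a z ↔ (1 ≤ p ∧ p ≤ a) ∧ p.Prime ∧ z ≤ (p : ℝ) := by
  unfold QZ
  rw [Finset.mem_filter, Finset.mem_Icc]

private theorem mem_PQ {k : ℕ} {z : ℝ} {p : ℕ} :
    p ∈ PQ k z ↔ p ∈ k.primeFactors ∧ z ≤ (p : ℝ) := by
  unfold PQ
  rw [Finset.mem_filter]

private theorem sum_QZ {a : ℕ} {z : ℝ} (hz : 1 ≤ z) :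
    ∑ p ∈ QZ a z, 1 / (p : ℝ) ^ 2 ≤ 2 / z := by
  have hc1 : 1 ≤ ⌈z⌉₊ := Nat.one_le_ceil_iff.mpr (by linarith)
  have hcz : z ≤ (⌈z⌉₊ : ℝ) := Nat.le_ceil z
  have hz0 : 0 < z := by linarith
  by_cases hca : ⌈z⌉₊ ≤ a + 1
  · have h1 : QZ a z ⊆ Ico ⌈z⌉₊ (a + 1) := by
      intro p hp
      rw [mem_QZ] at hp
      rw [Finset.mem_Ico]
      exact ⟨Nat.ceil_le.mpr hp.2.2, by omega⟩
    have h2 := sum_sq hc1 (a + 1) hca
    have h3 : ∑ p ∈ QZ a z, 1 / (p : ℝ) ^ 2 ≤ ∑ p ∈ Ico ⌈z⌉₊ (a + 1), 1 / (p : ℝ) ^ 2 :=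
      Finset.sum_le_sum_of_subset_of_nonneg h1 (fun i _ _ => by positivity)
    have h4 : 0 ≤ 2 / ((a + 1 : ℕ) : ℝ) := by positivity
    have h5 : 2 / (⌈z⌉₊ : ℝ) ≤ 2 / z := div_le_div_of_nonneg_left (by norm_num) hz0 hcz
    linarith
  · have h1 : QZ a z = ∅ := by
      rw [Finset.eq_empty_iff_forall_notMem]
      intro p hp
      rw [mem_QZ] at hp
      have := Nat.ceil_le.mpr hp.2.2
      omega
    rw [h1, Finset.sum_empty]
    positivity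

private theorem sum_PQ {a k : ℕ} {z D : ℝ} (hz : 1 ≤ z) (hk : 1 ≤ k) (hka : k ≤ a) (hD : 0 ≤ D) :
    ∑ p ∈ PQ k z, D / (p : ℝ) ≤ 2 * Real.log a * (D / z) := by
  have hz0 : 0 < z := by linarith
  calc ∑ p ∈ PQ k z, D / (p : ℝ) ≤ ∑ _p ∈ PQ k z, D / z := by
        apply Finset.sum_le_sum
        intro p hp
        exact div_le_div_of_nonneg_left hD hz0 (mem_PQ.mp hp).2
    _ = ((PQ k z).card : ℝ) * (D / z) := by rw [Finset.sum_const, nsmul_eq_mul]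
    _ ≤ 2 * Real.log a * (D / z) := by
        apply mul_le_mul_of_nonneg_right _ (by positivity)
        refine le_trans ?_ (card_pf hk hka)
        have : PQ k z ⊆ k.primeFactors := by
          intro p hp
          exact (mem_PQ.mp hp).1
        exact_mod_cast Finset.card_le_card this

private theorem sum2 {α β : Type} (A : Finset α) (B : Finset β) (f : α → ℝ) (g : β → ℝ) :
    ∑ q ∈ A ×ˢ B, f q.1 * g q.2 = (∑ x ∈ A, f x) * ∑ y ∈ B, g y := by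
  rw [Finset.sum_product, Finset.sum_mul_sum]

private theorem sum4 (A B C D : Finset ℕ) (f g h k : ℕ → ℝ) :
    ∑ q ∈ A ×ˢ B ×ˢ C ×ˢ D, f q.1 * (g q.2.1 * (h q.2.2.1 * k q.2.2.2)) =
      (∑ x ∈ A, f x) * ((∑ x ∈ B, g x) * ((∑ x ∈ C, h x) * ∑ x ∈ D, k x)) := by
  rw [sum2 A (B ×ˢ C ×ˢ D) f (fun r => g r.1 * (h r.2.1 * k r.2.2)),
    sum2 B (C ×ˢ D) g (fun r => h r.1 * k r.2), sum2 C D h k]

/-- the weight of a prime for `MK` -/
private def g0 (p : ℕ) (q : ℕ × ℕ) : ℝ := up p q.1 * wt q.2 + wt q.1 * up p q.2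

private theorem g0_nonneg (p : ℕ) (q : ℕ × ℕ) : 0 ≤ g0 p q := by
  unfold g0
  have := up_nonneg p q.1
  have := up_nonneg p q.2
  have := wt_nonneg q.1
  have := wt_nonneg q.2
  positivity

private def t1 (p : ℕ) (q : ℕ × ℕ × ℕ × ℕ) : ℝ :=
  up p q.1 * (wt q.2.1 * (wt q.2.2.1 * wt q.2.2.2))
private def t2 (p : ℕ) (q : ℕ × ℕ × ℕ × ℕ) : ℝ :=
  wt q.1 * (up p q.2.1 * (wt q.2.2.1 * wt q.2.2.2))
private def t3 (p : ℕ) (q : ℕ × ℕ × ℕ × ℕ) : ℝ :=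
  wt q.1 * (wt q.2.1 * (up p q.2.2.1 * wt q.2.2.2))
private def t4 (p : ℕ) (q : ℕ × ℕ × ℕ × ℕ) : ℝ :=
  wt q.1 * (wt q.2.1 * (wt q.2.2.1 * up p q.2.2.2))
private def t34 (p : ℕ) (q : ℕ × ℕ × ℕ × ℕ) : ℝ :=
  wt q.1 * (wt q.2.1 * (up p q.2.2.1 * up p q.2.2.2))
private def t13 (p : ℕ) (q : ℕ × ℕ × ℕ × ℕ) : ℝ :=
  up p q.1 * (wt q.2.1 * (up p q.2.2.1 * wt q.2.2.2))
private def t23 (p : ℕ) (q : ℕ × ℕ × ℕ × ℕ) : ℝ :=
  wt q.1 * (up p q.2.1 * (up p q.2.2.1 * wt q.2.2.2))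
private def t14 (p : ℕ) (q : ℕ × ℕ × ℕ × ℕ) : ℝ :=
  up p q.1 * (wt q.2.1 * (wt q.2.2.1 * up p q.2.2.2))
private def t24 (p : ℕ) (q : ℕ × ℕ × ℕ × ℕ) : ℝ :=
  wt q.1 * (up p q.2.1 * (wt q.2.2.1 * up p q.2.2.2))

/-- `1 / (m l x y)` -/
private def dd (q : ℕ × ℕ × ℕ × ℕ) : ℝ := wt q.1 * (wt q.2.1 * (wt q.2.2.1 * wt q.2.2.2))

/-- the majorant -/
private def GG4 (a k k' : ℕ) (z : ℝ) (q : ℕ × ℕ × ℕ × ℕ) : ℝ :=
  ∑ p ∈ PQ k z, (t1 p q + t2 p q + t3 p q + t4 p q) + ∑ p ∈ PQ k' z, (t3 p q + t4 p q) +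
    ∑ p ∈ QZ a z, (t34 p q + t13 p q + t23 p q + t14 p q + t24 p q)

private theorem t_nonneg (p : ℕ) (q : ℕ × ℕ × ℕ × ℕ) :
    0 ≤ t1 p q ∧ 0 ≤ t2 p q ∧ 0 ≤ t3 p q ∧ 0 ≤ t4 p q ∧ 0 ≤ t34 p q ∧ 0 ≤ t13 p q ∧
      0 ≤ t23 p q ∧ 0 ≤ t14 p q ∧ 0 ≤ t24 p q := by
  have h1 := up_nonneg p q.1
  have h2 := up_nonneg p q.2.1
  have h3 := up_nonneg p q.2.2.1
  have h4 := up_nonneg p q.2.2.2
  have w1 := wt_nonneg q.1
  have w2 := wt_nonneg q.2.1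
  have w3 := wt_nonneg q.2.2.1
  have w4 := wt_nonneg q.2.2.2
  unfold t1 t2 t3 t4 t34 t13 t23 t14 t24
  refine ⟨?_, ?_, ?_, ?_, ?_, ?_, ?_, ?_, ?_⟩ <;> positivity

private theorem dd_nonneg (q : ℕ × ℕ × ℕ × ℕ) : 0 ≤ dd q := by
  have w1 := wt_nonneg q.1
  have w2 := wt_nonneg q.2.1
  have w3 := wt_nonneg q.2.2.1
  have w4 := wt_nonneg q.2.2.2
  unfold dd
  positivity

private theorem GG4_parts (a k k' : ℕ) (z : ℝ) (q : ℕ × ℕ × ℕ × ℕ) :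
    0 ≤ ∑ p ∈ PQ k z, (t1 p q + t2 p q + t3 p q + t4 p q) ∧
    0 ≤ ∑ p ∈ PQ k' z, (t3 p q + t4 p q) ∧
    0 ≤ ∑ p ∈ QZ a z, (t34 p q + t13 p q + t23 p q + t14 p q + t24 p q) := by
  refine ⟨?_, ?_, ?_⟩
  · apply Finset.sum_nonneg
    intro p _
    obtain ⟨h1, h2, h3, h4, -⟩ := t_nonneg p q
    linarith
  · apply Finset.sum_nonneg
    intro p _
    obtain ⟨h1, h2, h3, h4, -⟩ := t_nonneg p q
    linarith
  · apply Finset.sum_nonneg
    intro p _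
    obtain ⟨-, -, -, -, h5, h6, h7, h8, h9⟩ := t_nonneg p q
    linarith

private theorem GG4_nonneg (a k k' : ℕ) (z : ℝ) (q : ℕ × ℕ × ℕ × ℕ) : 0 ≤ GG4 a k k' z q := by
  obtain ⟨h1, h2, h3⟩ := GG4_parts a k k' z q
  unfold GG4
  linarith

private theorem GG4_ge1 {a k k' : ℕ} {z : ℝ} {q : ℕ × ℕ × ℕ × ℕ} {p : ℕ} (hp : p ∈ PQ k z)
    (h : p ∣ q.1 ∨ p ∣ q.2.1 ∨ p ∣ q.2.2.1 ∨ p ∣ q.2.2.2) : dd q ≤ GG4 a k k' z q := by
  obtain ⟨h1, h2, h3⟩ := GG4_parts a k k' z q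
  have h4 : t1 p q + t2 p q + t3 p q + t4 p q ≤
      ∑ p ∈ PQ k z, (t1 p q + t2 p q + t3 p q + t4 p q) := by
    apply Finset.single_le_sum (f := fun p => t1 p q + t2 p q + t3 p q + t4 p q) _ hp
    intro p _
    obtain ⟨h1, h2, h3, h4, -⟩ := t_nonneg p q
    show 0 ≤ t1 p q + t2 p q + t3 p q + t4 p q
    linarith
  obtain ⟨n1, n2, n3, n4, -⟩ := t_nonneg p q
  have h5 : dd q ≤ t1 p q + t2 p q + t3 p q + t4 p q := by
    rcases h with h | h | h | h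
    · have : t1 p q = dd q := by unfold t1 dd; rw [up_eq h]
      linarith
    · have : t2 p q = dd q := by unfold t2 dd; rw [up_eq h]
      linarith
    · have : t3 p q = dd q := by unfold t3 dd; rw [up_eq h]
      linarith
    · have : t4 p q = dd q := by unfold t4 dd; rw [up_eq h]
      linarith
  unfold GG4
  linarith

private theorem GG4_ge2 {a k k' : ℕ} {z : ℝ} {q : ℕ × ℕ × ℕ × ℕ} {p : ℕ} (hp : p ∈ PQ k' z)
    (h : p ∣ q.2.2.1 ∨ p ∣ q.2.2.2) : dd q ≤ GG4 a k k' z q := by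
  obtain ⟨h1, h2, h3⟩ := GG4_parts a k k' z q
  have h4 : t3 p q + t4 p q ≤ ∑ p ∈ PQ k' z, (t3 p q + t4 p q) := by
    apply Finset.single_le_sum (f := fun p => t3 p q + t4 p q) _ hp
    intro p _
    obtain ⟨h1, h2, h3, h4, -⟩ := t_nonneg p q
    show 0 ≤ t3 p q + t4 p q
    linarith
  obtain ⟨n1, n2, n3, n4, -⟩ := t_nonneg p q
  have h5 : dd q ≤ t3 p q + t4 p q := by
    rcases h with h | h
    · have : t3 p q = dd q := by unfold t3 dd; rw [up_eq h]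
      linarith
    · have : t4 p q = dd q := by unfold t4 dd; rw [up_eq h]
      linarith
  unfold GG4
  linarith

private theorem GG4_ge3 {a k k' : ℕ} {z : ℝ} {q : ℕ × ℕ × ℕ × ℕ} {p : ℕ} (hp : p ∈ QZ a z)
    (h : (p ∣ q.2.2.1 ∧ p ∣ q.2.2.2) ∨ (p ∣ q.1 ∧ p ∣ q.2.2.1) ∨ (p ∣ q.2.1 ∧ p ∣ q.2.2.1) ∨
      (p ∣ q.1 ∧ p ∣ q.2.2.2) ∨ (p ∣ q.2.1 ∧ p ∣ q.2.2.2)) : dd q ≤ GG4 a k k' z q := by
  obtain ⟨h1, h2, h3⟩ := GG4_parts a k k' z q
  have h4 : t34 p q + t13 p q + t23 p q + t14 p q + t24 p q ≤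
      ∑ p ∈ QZ a z, (t34 p q + t13 p q + t23 p q + t14 p q + t24 p q) := by
    apply Finset.single_le_sum
      (f := fun p => t34 p q + t13 p q + t23 p q + t14 p q + t24 p q) _ hp
    intro p _
    obtain ⟨-, -, -, -, h5, h6, h7, h8, h9⟩ := t_nonneg p q
    show 0 ≤ t34 p q + t13 p q + t23 p q + t14 p q + t24 p q
    linarith
  obtain ⟨-, -, -, -, n5, n6, n7, n8, n9⟩ := t_nonneg p q
  have h5 : dd q ≤ t34 p q + t13 p q + t23 p q + t14 p q + t24 p q := by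
    rcases h with h | h | h | h | h
    · have : t34 p q = dd q := by unfold t34 dd; rw [up_eq h.1, up_eq h.2]
      linarith
    · have : t13 p q = dd q := by unfold t13 dd; rw [up_eq h.1, up_eq h.2]
      linarith
    · have : t23 p q = dd q := by unfold t23 dd; rw [up_eq h.1, up_eq h.2]
      linarith
    · have : t14 p q = dd q := by unfold t14 dd; rw [up_eq h.1, up_eq h.2]
      linarith
    · have : t24 p q = dd q := by unfold t24 dd; rw [up_eq h.1, up_eq h.2]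
      linarith
  unfold GG4
  linarith

/-- if the conditions of `cd` fail, the majorant is at least `1 / (m l x y)` -/
private theorem GG4_bad {a k k' m l x y : ℕ} {z : ℝ} (hk : 1 ≤ k) (hk' : 1 ≤ k')
    (hx1 : 1 ≤ x) (hxa : x ≤ a) (hy1 : 1 ≤ y) (hya : y ≤ a)
    (hm : Rg a z m) (hl : Rg a z l) (hx : Rg a z x) (hy : Rg a z y)
    (hbad : ¬ (Nat.Coprime (m * l) k ∧ Squarefree (x * y) ∧ Nat.Coprime (x * y) (k * k' * (m * l)))) :
    dd (m, l, x, y) ≤ GG4 a k k' z (m, l, x, y) := by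
  have hQx : ∀ p : ℕ, p.Prime → p ∣ x → p ∈ QZ a z := by
    intro p hp hpx
    rw [mem_QZ]
    exact ⟨⟨hp.one_lt.le, (Nat.le_of_dvd hx1 hpx).trans hxa⟩, hp, (hx.2 p hp hpx).1⟩
  have hQy : ∀ p : ℕ, p.Prime → p ∣ y → p ∈ QZ a z := by
    intro p hp hpy
    rw [mem_QZ]
    exact ⟨⟨hp.one_lt.le, (Nat.le_of_dvd hy1 hpy).trans hya⟩, hp, (hy.2 p hp hpy).1⟩
  by_cases h1 : Nat.Coprime (m * l) k
  · by_cases h2 : Nat.Coprime (x * y) (k * k' * (m * l))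
    · have h3 : ¬ Squarefree (x * y) := fun h => hbad ⟨h1, h, h2⟩
      have h4 : ¬ Nat.Coprime x y := by
        intro h
        exact h3 ((Nat.squarefree_mul h).mpr ⟨hx.1, hy.1⟩)
      obtain ⟨p, hp, hpx, hpy⟩ := Nat.Prime.not_coprime_iff_dvd.mp h4
      exact GG4_ge3 (hQx p hp hpx) (Or.inl ⟨hpx, hpy⟩)
    · obtain ⟨p, hp, hpxy, hpk⟩ := Nat.Prime.not_coprime_iff_dvd.mp h2
      have hpz : z ≤ (p : ℝ) := by
        rcases hp.dvd_mul.mp hpxy with h | h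
        · exact (hx.2 p hp h).1
        · exact (hy.2 p hp h).1
      rcases hp.dvd_mul.mp hpk with hpkk | hpml
      · rcases hp.dvd_mul.mp hpkk with hpk1 | hpk2
        · have hP : p ∈ PQ k z := by
            rw [mem_PQ, Nat.mem_primeFactors]
            exact ⟨⟨hp, hpk1, by omega⟩, hpz⟩
          rcases hp.dvd_mul.mp hpxy with h | h
          · exact GG4_ge1 hP (Or.inr (Or.inr (Or.inl h)))
          · exact GG4_ge1 hP (Or.inr (Or.inr (Or.inr h)))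
        · have hP : p ∈ PQ k' z := by
            rw [mem_PQ, Nat.mem_primeFactors]
            exact ⟨⟨hp, hpk2, by omega⟩, hpz⟩
          rcases hp.dvd_mul.mp hpxy with h | h
          · exact GG4_ge2 hP (Or.inl h)
          · exact GG4_ge2 hP (Or.inr h)
      · rcases hp.dvd_mul.mp hpxy with h | h
        · rcases hp.dvd_mul.mp hpml with h' | h'
          · exact GG4_ge3 (hQx p hp h) (Or.inr (Or.inl ⟨h', h⟩))
          · exact GG4_ge3 (hQx p hp h) (Or.inr (Or.inr (Or.inl ⟨h', h⟩)))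
        · rcases hp.dvd_mul.mp hpml with h' | h'
          · exact GG4_ge3 (hQy p hp h) (Or.inr (Or.inr (Or.inr (Or.inl ⟨h', h⟩))))
          · exact GG4_ge3 (hQy p hp h) (Or.inr (Or.inr (Or.inr (Or.inr ⟨h', h⟩))))
  · obtain ⟨p, hp, hpml, hpk⟩ := Nat.Prime.not_coprime_iff_dvd.mp h1
    have hpz : z ≤ (p : ℝ) := by
      rcases hp.dvd_mul.mp hpml with h | h
      · exact (hm.2 p hp h).1
      · exact (hl.2 p hp h).1
    have hP : p ∈ PQ k z := by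
      rw [mem_PQ, Nat.mem_primeFactors]
      exact ⟨⟨hp, hpk, by omega⟩, hpz⟩
    rcases hp.dvd_mul.mp hpml with h | h
    · exact GG4_ge1 hP (Or.inl h)
    · exact GG4_ge1 hP (Or.inr (Or.inl h))

/-- the sum of the majorant -/
private theorem GG4_sum {a k k' X Y : ℕ} {z : ℝ} (ha : 2 ≤ a) (hz : 1 ≤ z) (hX : X ≤ a)
    (hY : Y ≤ a) (hk : 1 ≤ k) (hka : k ≤ a) (hk' : 1 ≤ k') (hka' : k' ≤ a) :
    ∑ q ∈ Icc 1 X ×ˢ Icc 1 Y ×ˢ Icc 1 X ×ˢ Icc 1 Y, GG4 a k k' z q ≤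
      22 * (1 + Real.log a) ^ 5 / z := by
  set L : ℝ := 1 + Real.log a with hL
  have hL1 : 1 ≤ L := one_le_LL ha
  have hL0 : 0 ≤ L := by linarith
  have hz0 : 0 < z := by linarith
  have ha1 : 1 ≤ a := by omega
  have hlog : Real.log a ≤ L := by rw [hL]; linarith
  have hwX : ∑ m ∈ Icc 1 X, wt m ≤ L := harm ha1 hX
  have hwY : ∑ m ∈ Icc 1 Y, wt m ≤ L := harm ha1 hY
  have hwX0 : 0 ≤ ∑ m ∈ Icc 1 X, wt m := Finset.sum_nonneg (fun i _ => wt_nonneg i)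
  have hwY0 : 0 ≤ ∑ m ∈ Icc 1 Y, wt m := Finset.sum_nonneg (fun i _ => wt_nonneg i)
  have huX : ∀ p : ℕ, 1 ≤ p → ∑ m ∈ Icc 1 X, up p m ≤ L / p := fun p hp => harm_up ha1 hX hp
  have huY : ∀ p : ℕ, 1 ≤ p → ∑ m ∈ Icc 1 Y, up p m ≤ L / p := fun p hp => harm_up ha1 hY hp
  have huX0 : ∀ p : ℕ, 0 ≤ ∑ m ∈ Icc 1 X, up p m :=
    fun p => Finset.sum_nonneg (fun i _ => up_nonneg p i)
  have huY0 : ∀ p : ℕ, 0 ≤ ∑ m ∈ Icc 1 Y, up p m :=
    fun p => Finset.sum_nonneg (fun i _ => up_nonneg p i)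
  -- product bounds
  have prod4 : ∀ {A B C D A' B' C' D' : ℝ}, 0 ≤ A → 0 ≤ B → 0 ≤ C → 0 ≤ D → A ≤ A' → B ≤ B' →
      C ≤ C' → D ≤ D' → A * (B * (C * D)) ≤ A' * (B' * (C' * D')) := by
    intro A B C D A' B' C' D' hA hB hC hD h1 h2 h3 h4
    have hA' := hA.trans h1
    have hB' := hB.trans h2
    have hC' := hC.trans h3
    have e1 : C * D ≤ C' * D' := mul_le_mul h3 h4 hD hC'
    have e2 : B * (C * D) ≤ B' * (C' * D') := mul_le_mul h2 e1 (by positivity) hB'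
    exact mul_le_mul h1 e2 (by positivity) hA'
  have s1 : ∀ p : ℕ, 1 ≤ p → ∑ q ∈ Icc 1 X ×ˢ Icc 1 Y ×ˢ Icc 1 X ×ˢ Icc 1 Y, t1 p q ≤ L ^ 4 / p := by
    intro p hp
    have e : ∑ q ∈ Icc 1 X ×ˢ Icc 1 Y ×ˢ Icc 1 X ×ˢ Icc 1 Y, t1 p q = _ :=
      sum4 (Icc 1 X) (Icc 1 Y) (Icc 1 X) (Icc 1 Y) (up p) wt wt wt
    rw [e]
    refine (prod4 (huX0 p) hwY0 hwX0 hwY0 (huX p hp) hwY hwX hwY).trans (le_of_eq ?_)
    ring
  have s2 : ∀ p : ℕ, 1 ≤ p → ∑ q ∈ Icc 1 X ×ˢ Icc 1 Y ×ˢ Icc 1 X ×ˢ Icc 1 Y, t2 p q ≤ L ^ 4 / p := by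
    intro p hp
    have e : ∑ q ∈ Icc 1 X ×ˢ Icc 1 Y ×ˢ Icc 1 X ×ˢ Icc 1 Y, t2 p q = _ :=
      sum4 (Icc 1 X) (Icc 1 Y) (Icc 1 X) (Icc 1 Y) wt (up p) wt wt
    rw [e]
    refine (prod4 hwX0 (huY0 p) hwX0 hwY0 hwX (huY p hp) hwX hwY).trans (le_of_eq ?_)
    ring
  have s3 : ∀ p : ℕ, 1 ≤ p → ∑ q ∈ Icc 1 X ×ˢ Icc 1 Y ×ˢ Icc 1 X ×ˢ Icc 1 Y, t3 p q ≤ L ^ 4 / p := by
    intro p hp
    have e : ∑ q ∈ Icc 1 X ×ˢ Icc 1 Y ×ˢ Icc 1 X ×ˢ Icc 1 Y, t3 p q = _ :=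
      sum4 (Icc 1 X) (Icc 1 Y) (Icc 1 X) (Icc 1 Y) wt wt (up p) wt
    rw [e]
    refine (prod4 hwX0 hwY0 (huX0 p) hwY0 hwX hwY (huX p hp) hwY).trans (le_of_eq ?_)
    ring
  have s4 : ∀ p : ℕ, 1 ≤ p → ∑ q ∈ Icc 1 X ×ˢ Icc 1 Y ×ˢ Icc 1 X ×ˢ Icc 1 Y, t4 p q ≤ L ^ 4 / p := by
    intro p hp
    have e : ∑ q ∈ Icc 1 X ×ˢ Icc 1 Y ×ˢ Icc 1 X ×ˢ Icc 1 Y, t4 p q = _ :=
      sum4 (Icc 1 X) (Icc 1 Y) (Icc 1 X) (Icc 1 Y) wt wt wt (up p)
    rw [e]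
    refine (prod4 hwX0 hwY0 hwX0 (huY0 p) hwX hwY hwX (huY p hp)).trans (le_of_eq ?_)
    ring
  have s34 : ∀ p : ℕ, 1 ≤ p →
      ∑ q ∈ Icc 1 X ×ˢ Icc 1 Y ×ˢ Icc 1 X ×ˢ Icc 1 Y, t34 p q ≤ L ^ 4 * (1 / (p : ℝ) ^ 2) := by
    intro p hp
    have e : ∑ q ∈ Icc 1 X ×ˢ Icc 1 Y ×ˢ Icc 1 X ×ˢ Icc 1 Y, t34 p q = _ :=
      sum4 (Icc 1 X) (Icc 1 Y) (Icc 1 X) (Icc 1 Y) wt wt (up p) (up p)
    rw [e]
    refine (prod4 hwX0 hwY0 (huX0 p) (huY0 p) hwX hwY (huX p hp) (huY p hp)).trans (le_of_eq ?_)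
    ring
  have s13 : ∀ p : ℕ, 1 ≤ p →
      ∑ q ∈ Icc 1 X ×ˢ Icc 1 Y ×ˢ Icc 1 X ×ˢ Icc 1 Y, t13 p q ≤ L ^ 4 * (1 / (p : ℝ) ^ 2) := by
    intro p hp
    have e : ∑ q ∈ Icc 1 X ×ˢ Icc 1 Y ×ˢ Icc 1 X ×ˢ Icc 1 Y, t13 p q = _ :=
      sum4 (Icc 1 X) (Icc 1 Y) (Icc 1 X) (Icc 1 Y) (up p) wt (up p) wt
    rw [e]
    refine (prod4 (huX0 p) hwY0 (huX0 p) hwY0 (huX p hp) hwY (huX p hp) hwY).trans (le_of_eq ?_)
    ring
  have s23 : ∀ p : ℕ, 1 ≤ p →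
      ∑ q ∈ Icc 1 X ×ˢ Icc 1 Y ×ˢ Icc 1 X ×ˢ Icc 1 Y, t23 p q ≤ L ^ 4 * (1 / (p : ℝ) ^ 2) := by
    intro p hp
    have e : ∑ q ∈ Icc 1 X ×ˢ Icc 1 Y ×ˢ Icc 1 X ×ˢ Icc 1 Y, t23 p q = _ :=
      sum4 (Icc 1 X) (Icc 1 Y) (Icc 1 X) (Icc 1 Y) wt (up p) (up p) wt
    rw [e]
    refine (prod4 hwX0 (huY0 p) (huX0 p) hwY0 hwX (huY p hp) (huX p hp) hwY).trans (le_of_eq ?_)
    ring
  have s14 : ∀ p : ℕ, 1 ≤ p →
      ∑ q ∈ Icc 1 X ×ˢ Icc 1 Y ×ˢ Icc 1 X ×ˢ Icc 1 Y, t14 p q ≤ L ^ 4 * (1 / (p : ℝ) ^ 2) := by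
    intro p hp
    have e : ∑ q ∈ Icc 1 X ×ˢ Icc 1 Y ×ˢ Icc 1 X ×ˢ Icc 1 Y, t14 p q = _ :=
      sum4 (Icc 1 X) (Icc 1 Y) (Icc 1 X) (Icc 1 Y) (up p) wt wt (up p)
    rw [e]
    refine (prod4 (huX0 p) hwY0 hwX0 (huY0 p) (huX p hp) hwY hwX (huY p hp)).trans (le_of_eq ?_)
    ring
  have s24 : ∀ p : ℕ, 1 ≤ p →
      ∑ q ∈ Icc 1 X ×ˢ Icc 1 Y ×ˢ Icc 1 X ×ˢ Icc 1 Y, t24 p q ≤ L ^ 4 * (1 / (p : ℝ) ^ 2) := by
    intro p hp
    have e : ∑ q ∈ Icc 1 X ×ˢ Icc 1 Y ×ˢ Icc 1 X ×ˢ Icc 1 Y, t24 p q = _ :=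
      sum4 (Icc 1 X) (Icc 1 Y) (Icc 1 X) (Icc 1 Y) wt (up p) wt (up p)
    rw [e]
    refine (prod4 hwX0 (huY0 p) hwX0 (huY0 p) hwX (huY p hp) hwX (huY p hp)).trans (le_of_eq ?_)
    ring
  have hPone : ∀ {j : ℕ} {p : ℕ}, p ∈ PQ j z → 1 ≤ p := by
    intro j p hp
    exact (Nat.prime_of_mem_primeFactors (mem_PQ.mp hp).1).one_lt.le
  have hQone : ∀ {p : ℕ}, p ∈ QZ a z → 1 ≤ p := fun hp => (mem_QZ.mp hp).1.1
  -- first part
  have p1 : ∑ q ∈ Icc 1 X ×ˢ Icc 1 Y ×ˢ Icc 1 X ×ˢ Icc 1 Y,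
      ∑ p ∈ PQ k z, (t1 p q + t2 p q + t3 p q + t4 p q) ≤ 8 * L ^ 5 / z := by
    rw [Finset.sum_comm]
    calc ∑ p ∈ PQ k z, ∑ q ∈ Icc 1 X ×ˢ Icc 1 Y ×ˢ Icc 1 X ×ˢ Icc 1 Y,
          (t1 p q + t2 p q + t3 p q + t4 p q) ≤ ∑ p ∈ PQ k z, (4 * L ^ 4) / (p : ℝ) := by
          apply Finset.sum_le_sum
          intro p hp
          have h0 := hPone hp
          rw [Finset.sum_add_distrib, Finset.sum_add_distrib, Finset.sum_add_distrib]
          have := s1 p h0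
          have := s2 p h0
          have := s3 p h0
          have := s4 p h0
          have e : (4 * L ^ 4) / (p : ℝ) = L ^ 4 / p + L ^ 4 / p + L ^ 4 / p + L ^ 4 / p := by ring
          rw [e]
          linarith
      _ ≤ 2 * Real.log a * ((4 * L ^ 4) / z) := sum_PQ hz hk hka (by positivity)
      _ ≤ 2 * L * ((4 * L ^ 4) / z) := by
          apply mul_le_mul_of_nonneg_right _ (by positivity)
          linarith
      _ = 8 * L ^ 5 / z := by ring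
  have p2 : ∑ q ∈ Icc 1 X ×ˢ Icc 1 Y ×ˢ Icc 1 X ×ˢ Icc 1 Y,
      ∑ p ∈ PQ k' z, (t3 p q + t4 p q) ≤ 4 * L ^ 5 / z := by
    rw [Finset.sum_comm]
    calc ∑ p ∈ PQ k' z, ∑ q ∈ Icc 1 X ×ˢ Icc 1 Y ×ˢ Icc 1 X ×ˢ Icc 1 Y,
          (t3 p q + t4 p q) ≤ ∑ p ∈ PQ k' z, (2 * L ^ 4) / (p : ℝ) := by
          apply Finset.sum_le_sum
          intro p hp
          have h0 := hPone hp
          rw [Finset.sum_add_distrib]
          have := s3 p h0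
          have := s4 p h0
          have e : (2 * L ^ 4) / (p : ℝ) = L ^ 4 / p + L ^ 4 / p := by ring
          rw [e]
          linarith
      _ ≤ 2 * Real.log a * ((2 * L ^ 4) / z) := sum_PQ hz hk' hka' (by positivity)
      _ ≤ 2 * L * ((2 * L ^ 4) / z) := by
          apply mul_le_mul_of_nonneg_right _ (by positivity)
          linarith
      _ = 4 * L ^ 5 / z := by ring
  have p3 : ∑ q ∈ Icc 1 X ×ˢ Icc 1 Y ×ˢ Icc 1 X ×ˢ Icc 1 Y,
      ∑ p ∈ QZ a z, (t34 p q + t13 p q + t23 p q + t14 p q + t24 p q) ≤ 10 * L ^ 5 / z := by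
    rw [Finset.sum_comm]
    calc ∑ p ∈ QZ a z, ∑ q ∈ Icc 1 X ×ˢ Icc 1 Y ×ˢ Icc 1 X ×ˢ Icc 1 Y,
          (t34 p q + t13 p q + t23 p q + t14 p q + t24 p q)
          ≤ ∑ p ∈ QZ a z, (5 * L ^ 4) * (1 / (p : ℝ) ^ 2) := by
          apply Finset.sum_le_sum
          intro p hp
          have h0 := hQone hp
          rw [Finset.sum_add_distrib, Finset.sum_add_distrib, Finset.sum_add_distrib,
            Finset.sum_add_distrib]
          have := s34 p h0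
          have := s13 p h0
          have := s23 p h0
          have := s14 p h0
          have := s24 p h0
          linarith
      _ = (5 * L ^ 4) * ∑ p ∈ QZ a z, 1 / (p : ℝ) ^ 2 := by rw [← Finset.mul_sum]
      _ ≤ (5 * L ^ 4) * (2 / z) := by
          apply mul_le_mul_of_nonneg_left (sum_QZ hz) (by positivity)
      _ = 10 * L ^ 4 / z := by ring
      _ ≤ 10 * L ^ 5 / z := by
          apply div_le_div_of_nonneg_right _ hz0.le
          have : L ^ 4 ≤ L ^ 5 := pow_le_pow_right₀ hL1 (by norm_num)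
          linarith
  have e0 : ∑ q ∈ Icc 1 X ×ˢ Icc 1 Y ×ˢ Icc 1 X ×ˢ Icc 1 Y, GG4 a k k' z q =
      ∑ q ∈ Icc 1 X ×ˢ Icc 1 Y ×ˢ Icc 1 X ×ˢ Icc 1 Y,
        ∑ p ∈ PQ k z, (t1 p q + t2 p q + t3 p q + t4 p q) +
      ∑ q ∈ Icc 1 X ×ˢ Icc 1 Y ×ˢ Icc 1 X ×ˢ Icc 1 Y, ∑ p ∈ PQ k' z, (t3 p q + t4 p q) +
      ∑ q ∈ Icc 1 X ×ˢ Icc 1 Y ×ˢ Icc 1 X ×ˢ Icc 1 Y,
        ∑ p ∈ QZ a z, (t34 p q + t13 p q + t23 p q + t14 p q + t24 p q) := by
    rw [← Finset.sum_add_distrib, ← Finset.sum_add_distrib]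
    rfl
  rw [e0]
  have e1 : 22 * L ^ 5 / z = 8 * L ^ 5 / z + 4 * L ^ 5 / z + 10 * L ^ 5 / z := by ring
  rw [e1]
  linarith

/-- the inner sums -/
private def Ut (X Y : ℕ) (f g : ℕ → ℝ) : ℝ :=
  ∑ m ∈ Icc 1 X, ∑ n ∈ Icc 1 Y, f m * g n / (m * n)

private theorem pt2 {B f g : ℝ} {m n : ℕ} (hf : |f| ≤ B) (hg : |g| ≤ B) :
    |f * g / ((m : ℝ) * n)| ≤ B ^ 2 * (wt m * wt n) := by
  have hB0 : 0 ≤ B := (abs_nonneg _).trans hf
  have e : f * g / ((m : ℝ) * n) = (f * g) * (wt m * wt n) := by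
    unfold wt
    rw [div_mul_div_comm, one_mul, mul_one_div]
  have hw : 0 ≤ wt m * wt n := mul_nonneg (wt_nonneg m) (wt_nonneg n)
  rw [e, abs_mul, abs_of_nonneg hw, abs_mul]
  apply mul_le_mul_of_nonneg_right _ hw
  calc |f| * |g| ≤ B * B := mul_le_mul hf hg (abs_nonneg _) hB0
    _ = B ^ 2 := by ring

private theorem Ut_bound {a X Y : ℕ} {B : ℝ} {f g : ℕ → ℝ} (ha : 2 ≤ a) (hX : X ≤ a) (hY : Y ≤ a)
    (hf : ∀ m, |f m| ≤ B) (hg : ∀ m, |g m| ≤ B) :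
    |Ut X Y f g| ≤ B ^ 2 * (1 + Real.log a) ^ 2 := by
  have ha1 : 1 ≤ a := by omega
  have hwX : ∑ m ∈ Icc 1 X, wt m ≤ 1 + Real.log a := harm ha1 hX
  have hwY : ∑ m ∈ Icc 1 Y, wt m ≤ 1 + Real.log a := harm ha1 hY
  have hwY0 : 0 ≤ ∑ m ∈ Icc 1 Y, wt m := Finset.sum_nonneg (fun i _ => wt_nonneg i)
  have hL := one_le_LL ha
  unfold Ut
  calc |∑ m ∈ Icc 1 X, ∑ n ∈ Icc 1 Y, f m * g n / ((m : ℝ) * n)|
      ≤ ∑ m ∈ Icc 1 X, ∑ n ∈ Icc 1 Y, |f m * g n / ((m : ℝ) * n)| := by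
        refine (Finset.abs_sum_le_sum_abs _ _).trans (Finset.sum_le_sum fun m _ => ?_)
        exact Finset.abs_sum_le_sum_abs _ _
    _ ≤ ∑ m ∈ Icc 1 X, ∑ n ∈ Icc 1 Y, B ^ 2 * (wt m * wt n) := by
        apply Finset.sum_le_sum
        intro m _
        apply Finset.sum_le_sum
        intro n _
        exact pt2 (hf m) (hg n)
    _ = B ^ 2 * ((∑ m ∈ Icc 1 X, wt m) * ∑ n ∈ Icc 1 Y, wt n) := by
        rw [Finset.sum_mul_sum, Finset.mul_sum]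
        apply Finset.sum_congr rfl
        intro m _
        rw [Finset.mul_sum]
    _ ≤ B ^ 2 * (1 + Real.log a) ^ 2 := by
        apply mul_le_mul_of_nonneg_left _ (by positivity)
        rw [sq]
        exact mul_le_mul hwX hwY hwY0 (by linarith)

open Classical in
private theorem part2 {a k X Y : ℕ} {z B : ℝ} {f g : ℕ → ℝ} (ha : 2 ≤ a) (hz : 1 ≤ z)
    (hk : 1 ≤ k) (hka : k ≤ a) (hX : X ≤ a) (hY : Y ≤ a)
    (hf : ∀ m, |f m| ≤ B) (hg : ∀ m, |g m| ≤ B)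
    (hfR : ∀ m, f m ≠ 0 → Rg a z m) (hgR : ∀ m, g m ≠ 0 → Rg a z m) :
    |∑ m ∈ Icc 1 X, ∑ n ∈ Icc 1 Y, f m * g n / (m * n) *
        (if Nat.Coprime (m * n) k then (1 : ℝ) else 0) - Ut X Y f g| ≤
      B ^ 2 * (4 * (1 + Real.log a) ^ 3 / z) := by
  set L : ℝ := 1 + Real.log a with hL
  have hL1 : 1 ≤ L := one_le_LL ha
  have hL0 : 0 ≤ L := by linarith
  have hz0 : 0 < z := by linarith
  have ha1 : 1 ≤ a := by omega
  have hlog : Real.log a ≤ L := by rw [hL]; linarith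
  have hwX : ∑ m ∈ Icc 1 X, wt m ≤ L := harm ha1 hX
  have hwY : ∑ m ∈ Icc 1 Y, wt m ≤ L := harm ha1 hY
  have hwX0 : 0 ≤ ∑ m ∈ Icc 1 X, wt m := Finset.sum_nonneg (fun i _ => wt_nonneg i)
  have hwY0 : 0 ≤ ∑ m ∈ Icc 1 Y, wt m := Finset.sum_nonneg (fun i _ => wt_nonneg i)
  have hpt : ∀ m n : ℕ, |f m * g n / ((m : ℝ) * n) * (if Nat.Coprime (m * n) k then (1 : ℝ) else 0) -
      f m * g n / ((m : ℝ) * n)| ≤ B ^ 2 * ∑ p ∈ PQ k z, g0 p (m, n) := by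
    intro m n
    have hG : 0 ≤ ∑ p ∈ PQ k z, g0 p (m, n) := Finset.sum_nonneg (fun p _ => g0_nonneg p _)
    have hB2 : 0 ≤ B ^ 2 := by positivity
    split_ifs with hc
    · rw [mul_one, sub_self, abs_zero]
      exact mul_nonneg hB2 hG
    · rw [mul_zero, zero_sub, abs_neg]
      by_cases h1 : f m = 0
      · rw [h1, zero_mul, zero_div, abs_zero]
        exact mul_nonneg hB2 hG
      by_cases h2 : g n = 0
      · rw [h2, mul_zero, zero_div, abs_zero]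
        exact mul_nonneg hB2 hG
      refine (pt2 (hf m) (hg n)).trans (mul_le_mul_of_nonneg_left ?_ hB2)
      obtain ⟨p, hp, hpmn, hpk⟩ := Nat.Prime.not_coprime_iff_dvd.mp hc
      have hpz : z ≤ (p : ℝ) := by
        rcases hp.dvd_mul.mp hpmn with h | h
        · exact ((hfR m h1).2 p hp h).1
        · exact ((hgR n h2).2 p hp h).1
      have hP : p ∈ PQ k z := by
        rw [mem_PQ, Nat.mem_primeFactors]
        exact ⟨⟨hp, hpk, by omega⟩, hpz⟩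
      refine le_trans ?_ (Finset.single_le_sum (f := fun p => g0 p (m, n))
        (fun p _ => g0_nonneg p _) hP)
      show wt m * wt n ≤ up p m * wt n + wt m * up p n
      have w1 := wt_nonneg m
      have w2 := wt_nonneg n
      have u1 := up_nonneg p m
      have u2 := up_nonneg p n
      rcases hp.dvd_mul.mp hpmn with h | h
      · rw [up_eq h]
        have := mul_nonneg w1 u2
        linarith
      · rw [up_eq h]
        have := mul_nonneg u1 w2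
        linarith
  have e1 : ∑ m ∈ Icc 1 X, ∑ n ∈ Icc 1 Y, f m * g n / ((m : ℝ) * n) *
        (if Nat.Coprime (m * n) k then (1 : ℝ) else 0) - Ut X Y f g =
      ∑ m ∈ Icc 1 X, ∑ n ∈ Icc 1 Y, (f m * g n / ((m : ℝ) * n) *
        (if Nat.Coprime (m * n) k then (1 : ℝ) else 0) - f m * g n / ((m : ℝ) * n)) := by
    unfold Ut
    rw [← Finset.sum_sub_distrib]
    apply Finset.sum_congr rfl
    intro m _
    rw [← Finset.sum_sub_distrib]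
  rw [e1]
  calc |∑ m ∈ Icc 1 X, ∑ n ∈ Icc 1 Y, (f m * g n / ((m : ℝ) * n) *
        (if Nat.Coprime (m * n) k then (1 : ℝ) else 0) - f m * g n / ((m : ℝ) * n))|
      ≤ ∑ m ∈ Icc 1 X, ∑ n ∈ Icc 1 Y, |f m * g n / ((m : ℝ) * n) *
        (if Nat.Coprime (m * n) k then (1 : ℝ) else 0) - f m * g n / ((m : ℝ) * n)| := by
        refine (Finset.abs_sum_le_sum_abs _ _).trans (Finset.sum_le_sum fun m _ => ?_)
        exact Finset.abs_sum_le_sum_abs _ _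
    _ ≤ ∑ m ∈ Icc 1 X, ∑ n ∈ Icc 1 Y, B ^ 2 * ∑ p ∈ PQ k z, g0 p (m, n) :=
        Finset.sum_le_sum fun m _ => Finset.sum_le_sum fun n _ => hpt m n
    _ = B ^ 2 * ∑ q ∈ Icc 1 X ×ˢ Icc 1 Y, ∑ p ∈ PQ k z, g0 p q := by
        rw [Finset.sum_product, Finset.mul_sum]
        apply Finset.sum_congr rfl
        intro m _
        rw [Finset.mul_sum]
    _ ≤ B ^ 2 * (4 * L ^ 3 / z) := by
        apply mul_le_mul_of_nonneg_left _ (by positivity)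
        rw [Finset.sum_comm]
        calc ∑ p ∈ PQ k z, ∑ q ∈ Icc 1 X ×ˢ Icc 1 Y, g0 p q
            ≤ ∑ p ∈ PQ k z, (2 * L ^ 2) / (p : ℝ) := by
              apply Finset.sum_le_sum
              intro p hp
              have h0 : 1 ≤ p := (Nat.prime_of_mem_primeFactors (mem_PQ.mp hp).1).one_lt.le
              unfold g0
              rw [Finset.sum_add_distrib, sum2 (Icc 1 X) (Icc 1 Y) (up p) wt,
                sum2 (Icc 1 X) (Icc 1 Y) wt (up p)]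
              have huX : ∑ m ∈ Icc 1 X, up p m ≤ L / p := harm_up ha1 hX h0
              have huY : ∑ m ∈ Icc 1 Y, up p m ≤ L / p := harm_up ha1 hY h0
              have huX0 : 0 ≤ ∑ m ∈ Icc 1 X, up p m := Finset.sum_nonneg (fun i _ => up_nonneg p i)
              have huY0 : 0 ≤ ∑ m ∈ Icc 1 Y, up p m := Finset.sum_nonneg (fun i _ => up_nonneg p i)
              have hLp : 0 ≤ L / p := by positivity
              have i1 : (∑ m ∈ Icc 1 X, up p m) * ∑ m ∈ Icc 1 Y, wt m ≤ (L / p) * L :=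
                mul_le_mul huX hwY hwY0 hLp
              have i2 : (∑ m ∈ Icc 1 X, wt m) * ∑ m ∈ Icc 1 Y, up p m ≤ L * (L / p) :=
                mul_le_mul hwX huY huY0 hL0
              have e : (2 * L ^ 2) / (p : ℝ) = (L / p) * L + L * (L / p) := by ring
              rw [e]
              linarith
          _ ≤ 2 * Real.log a * ((2 * L ^ 2) / z) := sum_PQ hz hk hka (by positivity)
          _ ≤ 2 * L * ((2 * L ^ 2) / z) := by
              apply mul_le_mul_of_nonneg_right _ (by positivity)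
              linarith
          _ = 4 * L ^ 3 / z := by ring

private theorem part3 {a k k' X Y : ℕ} {z B : ℝ} {f g f' g' : ℕ → ℝ} (ha : 2 ≤ a) (hz : 1 ≤ z)
    (hk : 1 ≤ k) (hka : k ≤ a) (hk' : 1 ≤ k') (hka' : k' ≤ a) (hX : X ≤ a) (hY : Y ≤ a)
    (hf : ∀ m, |f m| ≤ B) (hg : ∀ m, |g m| ≤ B) (hf' : ∀ m, |f' m| ≤ B) (hg' : ∀ m, |g' m| ≤ B)
    (hfR : ∀ m, f m ≠ 0 → Rg a z m) (hgR : ∀ m, g m ≠ 0 → Rg a z m)
    (hfR' : ∀ m, f' m ≠ 0 → Rg a z m) (hgR' : ∀ m, g' m ≠ 0 → Rg a z m) :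
    |∑ m ∈ Icc 1 X, ∑ l ∈ Icc 1 Y, ∑ x ∈ Icc 1 X, ∑ y ∈ Icc 1 Y,
        cd k k' m l x y * (f m * g l * f' x * g' y) / ((m * l : ℕ) * (x * y : ℕ) : ℝ) -
      Ut X Y f g * Ut X Y f' g'| ≤ B ^ 4 * (22 * (1 + Real.log a) ^ 5 / z) := by
  have hB0 : 0 ≤ B := (abs_nonneg _).trans (hf 0)
  have e1 : ∑ m ∈ Icc 1 X, ∑ l ∈ Icc 1 Y, ∑ x ∈ Icc 1 X, ∑ y ∈ Icc 1 Y,
        cd k k' m l x y * (f m * g l * f' x * g' y) / ((m * l : ℕ) * (x * y : ℕ) : ℝ) =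
      ∑ q ∈ Icc 1 X ×ˢ Icc 1 Y ×ˢ Icc 1 X ×ˢ Icc 1 Y,
        cd k k' q.1 q.2.1 q.2.2.1 q.2.2.2 * (f q.1 * g q.2.1 * f' q.2.2.1 * g' q.2.2.2) /
          ((q.1 * q.2.1 : ℕ) * (q.2.2.1 * q.2.2.2 : ℕ) : ℝ) := by
    simp only [Finset.sum_product]
  have e2 : Ut X Y f g * Ut X Y f' g' = ∑ q ∈ Icc 1 X ×ˢ Icc 1 Y ×ˢ Icc 1 X ×ˢ Icc 1 Y,
        (f q.1 * g q.2.1 / ((q.1 : ℝ) * q.2.1)) *
          (f' q.2.2.1 * g' q.2.2.2 / ((q.2.2.1 : ℝ) * q.2.2.2)) := by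
    simp only [Finset.sum_product]
    unfold Ut
    rw [Finset.sum_mul]
    apply Finset.sum_congr rfl
    intro m _
    rw [Finset.sum_mul]
    apply Finset.sum_congr rfl
    intro l _
    rw [Finset.mul_sum]
    apply Finset.sum_congr rfl
    intro x _
    rw [Finset.mul_sum]
  rw [e1, e2, ← Finset.sum_sub_distrib]
  calc |∑ q ∈ Icc 1 X ×ˢ Icc 1 Y ×ˢ Icc 1 X ×ˢ Icc 1 Y,
        (cd k k' q.1 q.2.1 q.2.2.1 q.2.2.2 * (f q.1 * g q.2.1 * f' q.2.2.1 * g' q.2.2.2) /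
          ((q.1 * q.2.1 : ℕ) * (q.2.2.1 * q.2.2.2 : ℕ) : ℝ) -
        (f q.1 * g q.2.1 / ((q.1 : ℝ) * q.2.1)) *
          (f' q.2.2.1 * g' q.2.2.2 / ((q.2.2.1 : ℝ) * q.2.2.2)))|
      ≤ ∑ q ∈ Icc 1 X ×ˢ Icc 1 Y ×ˢ Icc 1 X ×ˢ Icc 1 Y, B ^ 4 * GG4 a k k' z q := by
        refine (Finset.abs_sum_le_sum_abs _ _).trans (Finset.sum_le_sum ?_)
        rintro ⟨m, l, x, y⟩ hq
        simp only [Finset.mem_product, Finset.mem_Icc] at hq
        obtain ⟨⟨hm1, hmX⟩, ⟨hl1, hlY⟩, ⟨hx1, hxX⟩, hy1, hyY⟩ := hq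
        have hG := GG4_nonneg a k k' z (m, l, x, y)
        have hB4 : 0 ≤ B ^ 4 := by positivity
        have hd := dd_nonneg (m, l, x, y)
        have r1 : cd k k' m l x y * (f m * g l * f' x * g' y) /
            ((m * l : ℕ) * (x * y : ℕ) : ℝ) =
            cd k k' m l x y * ((f m * g l * f' x * g' y) * dd (m, l, x, y)) := by
          unfold dd wt
          push_cast
          rw [div_eq_mul_inv]
          simp only [one_div, mul_inv]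
          ring
        have r2 : (f m * g l / ((m : ℝ) * l)) * (f' x * g' y / ((x : ℝ) * y)) =
            (f m * g l * f' x * g' y) * dd (m, l, x, y) := by
          unfold dd wt
          simp only [div_eq_mul_inv, mul_inv, one_mul]
          ring
        show |cd k k' m l x y * (f m * g l * f' x * g' y) / ((m * l : ℕ) * (x * y : ℕ) : ℝ) -
          (f m * g l / ((m : ℝ) * l)) * (f' x * g' y / ((x : ℝ) * y))| ≤
          B ^ 4 * GG4 a k k' z (m, l, x, y)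
        rw [r1, r2]
        by_cases hc : Nat.Coprime (m * l) k ∧ Squarefree (x * y) ∧
            Nat.Coprime (x * y) (k * k' * (m * l))
        · have hcd : cd k k' m l x y = 1 := by
            unfold cd
            rw [if_pos hc]
          rw [hcd, one_mul, sub_self, abs_zero]
          exact mul_nonneg hB4 hG
        · have hcd : cd k k' m l x y = 0 := by
            unfold cd
            rw [if_neg hc]
          rw [hcd, zero_mul, zero_sub, abs_neg, abs_mul, abs_of_nonneg hd]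
          by_cases h0 : f m * g l * f' x * g' y = 0
          · rw [h0, abs_zero, zero_mul]
            exact mul_nonneg hB4 hG
          · have n1 : f m ≠ 0 := fun h => h0 (by rw [h]; ring)
            have n2 : g l ≠ 0 := fun h => h0 (by rw [h]; ring)
            have n3 : f' x ≠ 0 := fun h => h0 (by rw [h]; ring)
            have n4 : g' y ≠ 0 := fun h => h0 (by rw [h]; ring)
            have hbad := GG4_bad (z := z) hk hk' hx1 (hxX.trans hX) hy1 (hyY.trans hY)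
              (hfR m n1) (hgR l n2) (hfR' x n3) (hgR' y n4) hc
            apply mul_le_mul _ hbad hd hB4
            rw [abs_mul, abs_mul, abs_mul]
            have i1 : |f m| * |g l| ≤ B * B := mul_le_mul (hf m) (hg l) (abs_nonneg _) hB0
            have i2 : |f m| * |g l| * |f' x| ≤ B * B * B :=
              mul_le_mul i1 (hf' x) (abs_nonneg _) (by positivity)
            have i3 : |f m| * |g l| * |f' x| * |g' y| ≤ B * B * B * B :=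
              mul_le_mul i2 (hg' y) (abs_nonneg _) (by positivity)
            calc |f m| * |g l| * |f' x| * |g' y| ≤ B * B * B * B := i3
              _ = B ^ 4 := by ring
    _ = B ^ 4 * ∑ q ∈ Icc 1 X ×ˢ Icc 1 Y ×ˢ Icc 1 X ×ˢ Icc 1 Y, GG4 a k k' z q := by
        rw [Finset.mul_sum]
    _ ≤ B ^ 4 * (22 * (1 + Real.log a) ^ 5 / z) := by
        apply mul_le_mul_of_nonneg_left _ (by positivity)
        exact GG4_sum ha hz hX hY hk hka hk' hka'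

/-- Module MUD. -/
theorem hMUD : StMUD := by
  refine ⟨22, by norm_num, ?_⟩
  intro a k k' T z M N B al be ha hz hk hka hk' hka' hM hN hS
  obtain ⟨hB, hSa, hSb⟩ := hS
  have hX : ⌊M⌋₊ ≤ a := Nat.floor_le_of_le hM
  have hY : ⌊N⌋₊ ≤ a := Nat.floor_le_of_le hN
  have hL1 := one_le_LL ha
  have hz0 : 0 < z := by linarith
  have hB0 : 0 ≤ B := (abs_nonneg _).trans (hB 0 0).1
  have hMU : MU T M N al be = ∑ t ∈ range T, Ut ⌊M⌋₊ ⌊N⌋₊ (al t) (be t) := rfl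
  refine ⟨?_, ?_, ?_⟩
  · rw [hMU]
    calc |∑ t ∈ range T, Ut ⌊M⌋₊ ⌊N⌋₊ (al t) (be t)|
        ≤ ∑ t ∈ range T, |Ut ⌊M⌋₊ ⌊N⌋₊ (al t) (be t)| := Finset.abs_sum_le_sum_abs _ _
      _ ≤ ∑ _t ∈ range T, B ^ 2 * (1 + Real.log a) ^ 2 := by
          apply Finset.sum_le_sum
          intro t _
          exact Ut_bound ha hX hY (fun m => (hB t m).1) (fun m => (hB t m).2)
      _ = T * B ^ 2 * (1 + Real.log a) ^ 2 := by
          rw [Finset.sum_const, Finset.card_range, nsmul_eq_mul]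
          ring
  · rw [hMU]
    unfold MK
    rw [← Finset.sum_sub_distrib]
    calc |∑ t ∈ range T, (∑ m ∈ Icc 1 ⌊M⌋₊, ∑ n ∈ Icc 1 ⌊N⌋₊, al t m * be t n / (m * n) *
          (if Nat.Coprime (m * n) k then (1 : ℝ) else 0) - Ut ⌊M⌋₊ ⌊N⌋₊ (al t) (be t))|
        ≤ ∑ t ∈ range T, |∑ m ∈ Icc 1 ⌊M⌋₊, ∑ n ∈ Icc 1 ⌊N⌋₊, al t m * be t n / (m * n) *
          (if Nat.Coprime (m * n) k then (1 : ℝ) else 0) - Ut ⌊M⌋₊ ⌊N⌋₊ (al t) (be t)| :=
          Finset.abs_sum_le_sum_abs _ _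
      _ ≤ ∑ _t ∈ range T, B ^ 2 * (4 * (1 + Real.log a) ^ 3 / z) := by
          apply Finset.sum_le_sum
          intro t _
          have := part2 (f := al t) (g := be t) ha hz hk hka hX hY (fun m => (hB t m).1)
            (fun m => (hB t m).2) (hSa t) (hSb t)
          convert this using 6
      _ = T * (B ^ 2 * (4 * (1 + Real.log a) ^ 3 / z)) := by
          rw [Finset.sum_const, Finset.card_range, nsmul_eq_mul]
      _ ≤ 22 * T * B ^ 2 * (1 + Real.log a) ^ 3 / z := by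
          have e : 22 * (T : ℝ) * B ^ 2 * (1 + Real.log a) ^ 3 / z =
            T * (B ^ 2 * (4 * (1 + Real.log a) ^ 3 / z)) +
              18 * (T * (B ^ 2 * ((1 + Real.log a) ^ 3 / z))) := by ring
          rw [e]
          have : 0 ≤ (T : ℝ) * (B ^ 2 * ((1 + Real.log a) ^ 3 / z)) := by positivity
          linarith
  · have hsq : MU T M N al be ^ 2 = ∑ t ∈ range T, ∑ s ∈ range T,
        Ut ⌊M⌋₊ ⌊N⌋₊ (al t) (be t) * Ut ⌊M⌋₊ ⌊N⌋₊ (al s) (be s) := by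
      rw [hMU, sq, Finset.sum_mul_sum]
    rw [hsq]
    unfold MC
    rw [← Finset.sum_sub_distrib]
    calc |∑ t ∈ range T, (∑ s ∈ range T, ∑ m ∈ Icc 1 ⌊M⌋₊, ∑ l ∈ Icc 1 ⌊N⌋₊,
          ∑ x ∈ Icc 1 ⌊M⌋₊, ∑ y ∈ Icc 1 ⌊N⌋₊, cd k k' m l x y *
            (al t m * be t l * al s x * be s y) / ((m * l : ℕ) * (x * y : ℕ) : ℝ) -
          ∑ s ∈ range T, Ut ⌊M⌋₊ ⌊N⌋₊ (al t) (be t) * Ut ⌊M⌋₊ ⌊N⌋₊ (al s) (be s))|
        ≤ ∑ t ∈ range T, |∑ s ∈ range T, ∑ m ∈ Icc 1 ⌊M⌋₊, ∑ l ∈ Icc 1 ⌊N⌋₊,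
          ∑ x ∈ Icc 1 ⌊M⌋₊, ∑ y ∈ Icc 1 ⌊N⌋₊, cd k k' m l x y *
            (al t m * be t l * al s x * be s y) / ((m * l : ℕ) * (x * y : ℕ) : ℝ) -
          ∑ s ∈ range T, Ut ⌊M⌋₊ ⌊N⌋₊ (al t) (be t) * Ut ⌊M⌋₊ ⌊N⌋₊ (al s) (be s)| :=
          Finset.abs_sum_le_sum_abs _ _
      _ ≤ ∑ _t ∈ range T, ∑ _s ∈ range T, B ^ 4 * (22 * (1 + Real.log a) ^ 5 / z) := by
          apply Finset.sum_le_sum
          intro t _
          rw [← Finset.sum_sub_distrib]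
          refine (Finset.abs_sum_le_sum_abs _ _).trans (Finset.sum_le_sum ?_)
          intro s _
          exact part3 (f := al t) (g := be t) (f' := al s) (g' := be s) ha hz hk hka hk' hka' hX hY
            (fun m => (hB t m).1) (fun m => (hB t m).2) (fun m => (hB s m).1) (fun m => (hB s m).2)
            (hSa t) (hSb t) (hSa s) (hSb s)
      _ = 22 * (T : ℝ) ^ 2 * B ^ 4 * (1 + Real.log a) ^ 5 / z := by
          rw [Finset.sum_const, Finset.sum_const, Finset.card_range, nsmul_eq_mul, nsmul_eq_mul]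
          ring

end Pool.Agent.Helper89.KP
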